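import Pool.Agent.K9h39.Zombie.Torus

set_option autoImplicit false

/-! Comparison of the torus with the plane, and the bound for the probability of survival. -/

namespace Pool.Agent.K9h39.Zombie

open scoped ENNReal
open Finset

section
variable (m : ℕ)

lemma mem_closer {z P : ℤ × ℤ} (h : 2 * (nrm z P + 1) ≤ ((m + 3 : ℕ) : ℤ)) (w : TV m) :
    w ∈ closer (torus (m + 3)) (lft m z) (lft m P) ↔
      (z.1 ≠ P.1 ∧ w = lft m (tow P.1 z.1, z.2)) ∨ (z.2 ≠ P.2 ∧ w = lft m (z.1, tow P.2 z.2)) := by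
  classical
  unfold closer
  rw [mem_filter]
  simp only [mem_univ, true_and]
  rw [lft_adj, torus_dist, torus_dist]
  have hz : ((tdist m (lft m P) (lft m z) : ℕ) : ℤ) = nrm z P := tdist_lft m P z (by linarith)
  -- the distance of a neighbour
  have hn : ∀ z' : ℤ × ℤ, nrm z' P ≤ nrm z P + 1 →
      (tdist m (lft m P) (lft m z') + 1 = tdist m (lft m P) (lft m z) ↔ nrm z' P + 1 = nrm z P) := by
    intro z' hz'
    have h2 : ((tdist m (lft m P) (lft m z') : ℕ) : ℤ) = nrm z' P := tdist_lft m P z' (by linarith)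
    constructor
    · intro h3
      have : ((tdist m (lft m P) (lft m z') : ℕ) : ℤ) + 1 = (tdist m (lft m P) (lft m z) : ℕ) := by
        exact_mod_cast h3
      linarith
    · intro h3
      have : ((tdist m (lft m P) (lft m z') : ℕ) : ℤ) + 1 = (tdist m (lft m P) (lft m z) : ℕ) := by
        linarith
      exact_mod_cast this
  have e1 : nrm (z.1 + 1, z.2) P + 1 = nrm z P ↔ z.1 < P.1 := by
    unfold nrm
    simp only
    constructor
    · intro h1
      by_contra hcon
      rw [abs_of_nonneg (show 0 ≤ z.1 + 1 - P.1 by linarith), abs_of_nonneg (show 0 ≤ z.1 - P.1 by linarith)] at h1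
      linarith
    · intro h1
      rw [abs_of_nonpos (show z.1 + 1 - P.1 ≤ 0 by linarith), abs_of_nonpos (show z.1 - P.1 ≤ 0 by linarith)]
      ring
  have e2 : nrm (z.1 - 1, z.2) P + 1 = nrm z P ↔ P.1 < z.1 := by
    unfold nrm
    simp only
    constructor
    · intro h1
      by_contra hcon
      rw [abs_of_nonpos (show z.1 - 1 - P.1 ≤ 0 by linarith), abs_of_nonpos (show z.1 - P.1 ≤ 0 by linarith)] at h1
      linarith
    · intro h1
      rw [abs_of_nonneg (show 0 ≤ z.1 - 1 - P.1 by linarith), abs_of_nonneg (show 0 ≤ z.1 - P.1 by linarith)]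
      ring
  have e3 : nrm (z.1, z.2 + 1) P + 1 = nrm z P ↔ z.2 < P.2 := by
    unfold nrm
    simp only
    constructor
    · intro h1
      by_contra hcon
      rw [abs_of_nonneg (show 0 ≤ z.2 + 1 - P.2 by linarith), abs_of_nonneg (show 0 ≤ z.2 - P.2 by linarith)] at h1
      linarith
    · intro h1
      rw [abs_of_nonpos (show z.2 + 1 - P.2 ≤ 0 by linarith), abs_of_nonpos (show z.2 - P.2 ≤ 0 by linarith)]
      ring
  have e4 : nrm (z.1, z.2 - 1) P + 1 = nrm z P ↔ P.2 < z.2 := by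
    unfold nrm
    simp only
    constructor
    · intro h1
      by_contra hcon
      rw [abs_of_nonpos (show z.2 - 1 - P.2 ≤ 0 by linarith), abs_of_nonpos (show z.2 - P.2 ≤ 0 by linarith)] at h1
      linarith
    · intro h1
      rw [abs_of_nonneg (show 0 ≤ z.2 - 1 - P.2 by linarith), abs_of_nonneg (show 0 ≤ z.2 - P.2 by linarith)]
      ring
  have tri : ∀ z' : ℤ × ℤ, nrm z' z ≤ 1 → nrm z' P ≤ nrm z P + 1 := by
    intro z' h1
    have := nrm_triangle z' P z
    linarith
  have t1 : nrm (z.1 + 1, z.2) z ≤ 1 := by unfold nrm; simp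
  have t2 : nrm (z.1 - 1, z.2) z ≤ 1 := by unfold nrm; simp
  have t3 : nrm (z.1, z.2 + 1) z ≤ 1 := by unfold nrm; simp
  have t4 : nrm (z.1, z.2 - 1) z ≤ 1 := by unfold nrm; simp
  constructor
  · rintro ⟨h1 | h1 | h1 | h1, h2⟩ <;> rw [h1] at h2
    · rw [hn _ (tri _ t1), e1] at h2
      left; exact ⟨h2.ne, by rw [tow_lt h2]; exact h1⟩
    · rw [hn _ (tri _ t2), e2] at h2
      left; exact ⟨h2.ne', by rw [tow_gt h2]; exact h1⟩
    · rw [hn _ (tri _ t3), e3] at h2
      right; exact ⟨h2.ne, by rw [tow_lt h2]; exact h1⟩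
    · rw [hn _ (tri _ t4), e4] at h2
      right; exact ⟨h2.ne', by rw [tow_gt h2]; exact h1⟩
  · rintro (⟨h1, h2⟩ | ⟨h1, h2⟩)
    · rcases lt_or_gt_of_ne h1 with h3 | h3
      · rw [tow_lt h3] at h2
        exact ⟨Or.inl h2, by rw [h2, hn _ (tri _ t1), e1]; exact h3⟩
      · rw [tow_gt h3] at h2
        exact ⟨Or.inr (Or.inl h2), by rw [h2, hn _ (tri _ t2), e2]; exact h3⟩
    · rcases lt_or_gt_of_ne h1 with h3 | h3
      · rw [tow_lt h3] at h2
        exact ⟨Or.inr (Or.inr (Or.inl h2)), by rw [h2, hn _ (tri _ t3), e3]; exact h3⟩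
      · rw [tow_gt h3] at h2
        exact ⟨Or.inr (Or.inr (Or.inr h2)), by rw [h2, hn _ (tri _ t4), e4]; exact h3⟩

lemma nrm_tow_fst {z P : ℤ × ℤ} (h : z.1 ≠ P.1) : nrm (tow P.1 z.1, z.2) P = nrm z P - 1 := by
  unfold nrm
  rw [abs_tow h]
  ring

lemma nrm_tow_snd {z P : ℤ × ℤ} (h : z.2 ≠ P.2) : nrm (z.1, tow P.2 z.2) P = nrm z P - 1 := by
  unfold nrm
  rw [abs_tow h]
  ring

lemma nrm_nonneg (z P : ℤ × ℤ) : 0 ≤ nrm z P := by unfold nrm; positivity

/-- The sum over the moves of a zombie. -/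
lemma sum_move_both {z P : ℤ × ℤ} (h : 2 * (nrm z P + 1) ≤ ((m + 3 : ℕ) : ℤ)) (h1 : z.1 ≠ P.1)
    (h2 : z.2 ≠ P.2) (f : TV m → ℝ) :
    ∑ w, moveProb (torus (m + 3)) (lft m z) (lft m P) w * f w =
      (f (lft m (tow P.1 z.1, z.2)) + f (lft m (z.1, tow P.2 z.2))) / 2 := by
  classical
  have hc : closer (torus (m + 3)) (lft m z) (lft m P) =
      {lft m (tow P.1 z.1, z.2), lft m (z.1, tow P.2 z.2)} := by
    ext w
    rw [mem_closer m h]
    simp [h1, h2]
  have hne : lft m (tow P.1 z.1, z.2) ≠ lft m (z.1, tow P.2 z.2) := by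
    intro he
    have h3 : ∀ a b : ℤ, a ≠ b → |tow b a - a| = 1 := by
      intro a b hab
      rcases lt_or_gt_of_ne hab with h | h
      · rw [tow_lt h]; simp
      · rw [tow_gt h]; simp
    have h4 : ∀ a b : ℤ, a ≠ b → |a - tow b a| = 1 := by
      intro a b hab
      rw [abs_sub_comm]; exact h3 a b hab
    have h5 := lft_inj m (z := (tow P.1 z.1, z.2)) (w := (z.1, tow P.2 z.2))
      (by rw [h3 _ _ h1]; push_cast; linarith [(Nat.cast_nonneg m : (0 : ℤ) ≤ m)])
      (by rw [h4 _ _ h2]; push_cast; linarith [(Nat.cast_nonneg m : (0 : ℤ) ≤ m)]) he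
    have h6 := congrArg Prod.fst h5
    simp only at h6
    have h7 := h3 _ _ h1
    rw [h6] at h7
    simp at h7
  have hcard : (closer (torus (m + 3)) (lft m z) (lft m P)).card = 2 := by
    rw [hc, Finset.card_pair hne]
  unfold moveProb
  simp_rw [ite_mul, zero_mul]
  rw [← Finset.sum_filter, Finset.filter_mem_eq_inter, Finset.univ_inter, hcard, hc,
    Finset.sum_pair hne]
  push_cast
  ring

lemma sum_move_fst {z P : ℤ × ℤ} (h : 2 * (nrm z P + 1) ≤ ((m + 3 : ℕ) : ℤ)) (h1 : z.1 ≠ P.1)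
    (h2 : z.2 = P.2) (f : TV m → ℝ) :
    ∑ w, moveProb (torus (m + 3)) (lft m z) (lft m P) w * f w = f (lft m (tow P.1 z.1, z.2)) := by
  classical
  have hc : closer (torus (m + 3)) (lft m z) (lft m P) = {lft m (tow P.1 z.1, z.2)} := by
    ext w
    rw [mem_closer m h]
    simp [h1, h2]
  unfold moveProb
  simp_rw [ite_mul, zero_mul]
  rw [← Finset.sum_filter, Finset.filter_mem_eq_inter, Finset.univ_inter, hc,
    Finset.sum_singleton, Finset.card_singleton]
  simp

lemma sum_move_snd {z P : ℤ × ℤ} (h : 2 * (nrm z P + 1) ≤ ((m + 3 : ℕ) : ℤ)) (h1 : z.1 = P.1)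
    (h2 : z.2 ≠ P.2) (f : TV m → ℝ) :
    ∑ w, moveProb (torus (m + 3)) (lft m z) (lft m P) w * f w = f (lft m (z.1, tow P.2 z.2)) := by
  classical
  have hc : closer (torus (m + 3)) (lft m z) (lft m P) = {lft m (z.1, tow P.2 z.2)} := by
    ext w
    rw [mem_closer m h]
    simp [h1, h2]
  unfold moveProb
  simp_rw [ite_mul, zero_mul]
  rw [← Finset.sum_filter, Finset.filter_mem_eq_inter, Finset.univ_inter, hc,
    Finset.sum_singleton, Finset.card_singleton]
  simp

lemma closer_self {V : Type} [Fintype V] (G : SimpleGraph V) (v : V) : closer G v v = ∅ := by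
  classical
  unfold closer
  rw [Finset.filter_eq_empty_iff]
  rintro w _ ⟨_, h⟩
  rw [SimpleGraph.dist_self] at h
  omega

lemma nonCatch_self {V : Type} [Fintype V] (G : SimpleGraph V) (t : ℕ) (p : ℕ → V) :
    nonCatch G (t + 1) p (p 0) = 0 := by
  unfold nonCatch
  refine Finset.sum_eq_zero fun w _ => ?_
  unfold moveProb
  rw [closer_self]
  simp

lemma compare (T : ℕ) : ∀ (p : ℕ → TV m) (P : ℕ → ℤ × ℤ), (∀ t, lft m (P t) = p t) → LegalZ P →
    ∀ z, 2 * (nrm z (P 0) + 1) ≤ ((m + 3 : ℕ) : ℤ) →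
      ENNReal.ofReal (nonCatch (torus (m + 3)) T p (lft m z)) + plane T P z ≤ 1 := by
  induction T with
  | zero =>
    intro p P _ _ z _
    simp [nonCatch, plane]
  | succ T ih =>
    intro p P hp hP z hz
    by_cases hz0 : z = P 0
    · subst hz0
      rw [hp 0, nonCatch_self]
      simp only [ENNReal.ofReal_zero, zero_add]
      exact plane_le_one _ _ _
    -- the value at a neighbour
    have key : ∀ w : ℤ × ℤ, nrm w (P 0) + 1 ≤ nrm z (P 0) →
        ENNReal.ofReal (if lft m w = p 0 ∨ lft m w = p 1 then 0 else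
          nonCatch (torus (m + 3)) T (fun j => p (j + 1)) (lft m w)) +
        after (P 0) (P 1) (plane T fun t => P (t + 1)) w ≤ 1 := by
      intro w hw
      have h1 : nrm w (P 1) ≤ nrm w (P 0) + 1 := by
        have h2 := nrm_triangle w (P 1) (P 0)
        have h3 : nrm (P 0) (P 1) ≤ 1 := by
          rw [nrm_comm]; exact hP 0
        linarith
      have hle : after (P 0) (P 1) (plane T fun t => P (t + 1)) w ≤ 1 := by
        unfold after
        split_ifs
        · exact le_rfl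
        · exact plane_le_one _ _ _
      split_ifs with h4
      · simpa using hle
      · unfold after
        rw [if_neg]
        · exact ih (fun j => p (j + 1)) (fun t => P (t + 1)) (fun t => hp (t + 1)) hP.shift w
            (by change 2 * (nrm w (P 1) + 1) ≤ _; linarith)
        · rintro (h5 | h5)
          · exact h4 (Or.inl (by rw [h5, hp 0]))
          · exact h4 (Or.inr (by rw [h5, hp 1]))
    set f : TV m → ℝ := fun w => if w = p 0 ∨ w = p 1 then 0 else
          nonCatch (torus (m + 3)) T (fun j => p (j + 1)) w with hf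
    have hf0 : ∀ w, 0 ≤ f w := by
      intro w
      rw [hf]
      dsimp only
      split_ifs
      · exact le_rfl
      · exact nonCatch_nonneg _ _ _ _
    have hsum : nonCatch (torus (m + 3)) (T + 1) p (lft m z) =
        ∑ w, moveProb (torus (m + 3)) (lft m z) (lft m (P 0)) w * f w := by
      rw [nonCatch, hp 0]
      refine Finset.sum_congr rfl fun w _ => ?_
      rw [hf]
      congr
    rw [hsum]
    have hhalf : (2 : ℝ≥0∞)⁻¹ * (1 + 1) = 1 := by
      rw [one_add_one_eq_two, ENNReal.inv_mul_cancel (by norm_num) (by norm_num)]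
    have h2' : (2 : ℝ≥0∞)⁻¹ = ENNReal.ofReal (2⁻¹) := by
      rw [ENNReal.ofReal_inv_of_pos two_pos]; simp
    have key' : ∀ w : ℤ × ℤ, nrm w (P 0) + 1 ≤ nrm z (P 0) →
        ENNReal.ofReal (f (lft m w)) +
        after (P 0) (P 1) (plane T fun t => P (t + 1)) w ≤ 1 := by
      intro w hw
      have := key w hw
      rw [hf]
      convert this
    by_cases h1 : z.1 = (P 0).1
    · by_cases h2 : z.2 = (P 0).2
      · exact absurd (Prod.ext h1 h2) hz0
      · rw [sum_move_snd m hz h1 h2]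
        have h3 : plane (T + 1) P z = after (P 0) (P 1) (plane T fun t => P (t + 1))
            (z.1, tow (P 0).2 z.2) := by
          unfold plane stepU stepV
          rw [if_neg (not_not.2 h1), if_pos h2, if_pos h2, ← two_mul, half_two]
        rw [h3]
        exact key' _ (by rw [nrm_tow_snd h2]; linarith)
    · by_cases h2 : z.2 = (P 0).2
      · rw [sum_move_fst m hz h1 h2]
        have h3 : plane (T + 1) P z = after (P 0) (P 1) (plane T fun t => P (t + 1))
            (tow (P 0).1 z.1, z.2) := by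
          unfold plane stepU stepV
          rw [if_pos h1, if_neg (not_not.2 h2), if_pos h1, ← two_mul, half_two]
        rw [h3]
        exact key' _ (by rw [nrm_tow_fst h1]; linarith)
      · rw [sum_move_both m hz h1 h2]
        have h3 : plane (T + 1) P z = 2⁻¹ * (after (P 0) (P 1) (plane T fun t => P (t + 1))
            (tow (P 0).1 z.1, z.2) + after (P 0) (P 1) (plane T fun t => P (t + 1))
            (z.1, tow (P 0).2 z.2)) := by
          unfold plane stepU stepV
          rw [if_pos h1, if_pos h2]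
        rw [h3]
        have k1 := key' (tow (P 0).1 z.1, z.2) (by rw [nrm_tow_fst h1]; linarith)
        have k2 := key' (z.1, tow (P 0).2 z.2) (by rw [nrm_tow_snd h2]; linarith)
        rw [show (f (lft m (tow (P 0).1 z.1, z.2)) + f (lft m (z.1, tow (P 0).2 z.2))) / 2 =
          2⁻¹ * (f (lft m (tow (P 0).1 z.1, z.2)) + f (lft m (z.1, tow (P 0).2 z.2))) by ring,
          ENNReal.ofReal_mul (by norm_num), ← h2', ENNReal.ofReal_add (hf0 _) (hf0 _), ← mul_add]
        calc _ = 2⁻¹ * ((ENNReal.ofReal (f (lft m (tow (P 0).1 z.1, z.2))) +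
              after (P 0) (P 1) (plane T fun t => P (t + 1)) (tow (P 0).1 z.1, z.2)) +
              (ENNReal.ofReal (f (lft m (z.1, tow (P 0).2 z.2))) +
              after (P 0) (P 1) (plane T fun t => P (t + 1)) (z.1, tow (P 0).2 z.2))) := by
              congr 1
              ring
          _ ≤ 2⁻¹ * (1 + 1) := by gcongr
          _ = 1 := hhalf

/-- trajectories can be lifted -/
lemma exists_lift (p : ℕ → TV m) (hp : Legal (torus (m + 3)) p) :
    ∃ P : ℕ → ℤ × ℤ, (∀ t, lft m (P t) = p t) ∧ LegalZ P := by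
  have hstep : ∀ (t : ℕ) (Z : ℤ × ℤ), lft m Z = p t →
      ∃ Z' : ℤ × ℤ, lft m Z' = p (t + 1) ∧ |Z'.1 - Z.1| + |Z'.2 - Z.2| ≤ 1 := by
    intro t Z hZ
    rcases hp t with h | h
    · exact ⟨Z, by rw [h, hZ], by simp⟩
    · rw [← hZ, lft_adj] at h
      rcases h with h | h | h | h
      · exact ⟨_, h.symm, by simp⟩
      · exact ⟨_, h.symm, by simp⟩
      · exact ⟨_, h.symm, by simp⟩
      · exact ⟨_, h.symm, by simp⟩
  choose next hn1 hn2 using hstep
  obtain ⟨Z0, hZ0⟩ := lft_surj m (p 0)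
  let Q : ∀ t : ℕ, {Z : ℤ × ℤ // lft m Z = p t} :=
    fun t => Nat.rec ⟨Z0, hZ0⟩ (fun t Z => ⟨next t Z.1 Z.2, hn1 t Z.1 Z.2⟩) t
  exact ⟨fun t => (Q t).1, fun t => (Q t).2, fun t => hn2 t (Q t).1 (Q t).2⟩

/-- The number of starting vertices from which a zombie is expected not to catch the trajectory. -/
lemma sum_nonCatch_le (T : ℕ) (hT : 4 * T + 2 ≤ m + 3) (p : ℕ → TV m)
    (hp : Legal (torus (m + 3)) p) :
    ∑ z, nonCatch (torus (m + 3)) T p z ≤ ((m + 3 : ℕ) : ℝ) ^ 2 - lowerSum T := by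
  classical
  obtain ⟨P, hPp, hP⟩ := exists_lift m p hp
  set S : Finset (ℤ × ℤ) :=
    ((Finset.Icc ((P 0).1 - 2 * T) ((P 0).1 + 2 * T)) ×ˢ
      (Finset.Icc ((P 0).2 - 2 * T) ((P 0).2 + 2 * T))).filter
      (fun z => nrm z (P 0) ≤ 2 * T) with hS
  have hmem : ∀ z, z ∈ S ↔ nrm z (P 0) ≤ 2 * T := by
    intro z
    rw [hS, mem_filter, mem_product, mem_Icc, mem_Icc]
    constructor
    · exact fun h => h.2
    · intro h
      refine ⟨?_, h⟩
      unfold nrm at h
      have h1 := abs_nonneg (z.1 - (P 0).1)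
      have h2 := abs_nonneg (z.2 - (P 0).2)
      have h3 := abs_le.1 (show |z.1 - (P 0).1| ≤ 2 * T by linarith)
      have h4 := abs_le.1 (show |z.2 - (P 0).2| ≤ 2 * T by linarith)
      refine ⟨⟨?_, ?_⟩, ⟨?_, ?_⟩⟩ <;> linarith [h3.1, h3.2, h4.1, h4.2]
  have hT' : 4 * (T : ℤ) + 2 ≤ ((m + 3 : ℕ) : ℤ) := by exact_mod_cast hT
  have htot : total (plane T P) = ∑ z ∈ S, plane T P z := by
    unfold total
    refine tsum_eq_sum fun z hz => ?_
    apply plane_supp T P hP
    rw [hmem] at hz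
    push Not at hz
    exact hz
  have hlow := total_lower T P hP
  rw [htot] at hlow
  have hinj : Set.InjOn (lft m) (S : Set (ℤ × ℤ)) := by
    intro z hz w hw he
    rw [Finset.mem_coe, hmem] at hz hw
    unfold nrm at hz hw
    have h1 := abs_nonneg (z.1 - (P 0).1)
    have h2 := abs_nonneg (z.2 - (P 0).2)
    have h3 := abs_nonneg (w.1 - (P 0).1)
    have h4 := abs_nonneg (w.2 - (P 0).2)
    have h5 := abs_sub_le z.1 (P 0).1 w.1
    have h6 := abs_sub_le z.2 (P 0).2 w.2
    rw [abs_sub_comm (P 0).1] at h5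
    rw [abs_sub_comm (P 0).2] at h6
    exact lft_inj m (by linarith) (by linarith) he
  set F : TV m → ℝ := nonCatch (torus (m + 3)) T p with hF
  have hF0 : ∀ z, 0 ≤ F z := nonCatch_nonneg _ _ _
  have hF1 : ∀ z, F z ≤ 1 := nonCatch_le_one _ _ _
  have hmain : ENNReal.ofReal (∑ z, F z) + ∑ z ∈ S, plane T P z ≤ (((m + 3) ^ 2 : ℕ) : ℝ≥0∞) := by
    rw [ENNReal.ofReal_sum_of_nonneg (fun z _ => hF0 z)]
    rw [← Finset.sum_add_sum_compl (S.image (lft m)), Finset.sum_image hinj]
    have h1 : ∑ z ∈ S, ENNReal.ofReal (F (lft m z)) + ∑ z ∈ S, plane T P z ≤ (S.card : ℝ≥0∞) := by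
      rw [← Finset.sum_add_distrib]
      calc _ ≤ ∑ z ∈ S, (1 : ℝ≥0∞) := by
            refine Finset.sum_le_sum fun z hz => ?_
            rw [hmem] at hz
            exact compare m T p P hPp hP z (by linarith)
        _ = _ := by simp
    have h2 : ∑ z ∈ (S.image (lft m))ᶜ, ENNReal.ofReal (F z) ≤
        (((S.image (lft m))ᶜ).card : ℝ≥0∞) := by
      calc _ ≤ ∑ z ∈ (S.image (lft m))ᶜ, (1 : ℝ≥0∞) := by
            refine Finset.sum_le_sum fun z _ => ?_
            rw [← ENNReal.ofReal_one]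
            exact ENNReal.ofReal_le_ofReal (hF1 z)
        _ = _ := by simp
    have h3 : S.card + ((S.image (lft m))ᶜ).card = (m + 3) ^ 2 := by
      have h4 : (S.image (lft m)).card = S.card := Finset.card_image_of_injOn hinj
      rw [← h4, Finset.card_add_card_compl]
      simp [sq]
    calc _ = (∑ z ∈ S, ENNReal.ofReal (F (lft m z)) + ∑ z ∈ S, plane T P z) +
          ∑ z ∈ (S.image (lft m))ᶜ, ENNReal.ofReal (F z) := by ring
      _ ≤ (S.card : ℝ≥0∞) + (((S.image (lft m))ᶜ).card : ℝ≥0∞) := add_le_add h1 h2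
      _ = _ := by rw [← h3]; push_cast; rfl
  have hls : 0 ≤ lowerSum T := Finset.sum_nonneg fun s _ => mul_nonneg zero_le_two (b_nonneg _ _)
  have h4 : ENNReal.ofReal (∑ z, F z + lowerSum T) ≤ ENNReal.ofReal (((m + 3) ^ 2 : ℕ) : ℝ) := by
    rw [ENNReal.ofReal_add (Finset.sum_nonneg fun z _ => hF0 z) hls, ENNReal.ofReal_natCast]
    exact le_trans (by gcongr) hmain
  have h5 := (ENNReal.ofReal_le_ofReal_iff (by positivity)).1 h4
  push_cast at h5 ⊢
  linarith

open Classical in
lemma card_nbhd (v : TV m) :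
    Fintype.card {w // w = v ∨ (torus (m + 3)).Adj v w} ≤ 5 := by
  rw [Fintype.card_subtype]
  have hsub : (univ.filter fun w => w = v ∨ (torus (m + 3)).Adj v w) ⊆
      {v, (v.1 + 1, v.2), (v.1 - 1, v.2), (v.1, v.2 + 1), (v.1, v.2 - 1)} := by
    intro w hw
    rw [mem_filter, torus_adj] at hw
    simp only [mem_insert, mem_singleton]
    exact hw.2
  refine (Finset.card_le_card hsub).trans ?_
  exact Finset.card_le_five

open Classical in
/-- The bound for the probability of survival. -/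
lemma surviveProb_torus (T : ℕ) (hT : 4 * T + 2 ≤ m + 3) {k : ℕ}
    (σ : List (Fin k → TV m) → TV m) :
    surviveProb (torus (m + 3)) σ T ≤ ((m + 3 : ℕ) : ℝ) ^ 2 * 5 ^ T *
      ((((m + 3 : ℕ) : ℝ) ^ 2 - lowerSum T) / ((m + 3 : ℕ) : ℝ) ^ 2) ^ k := by
  have hD : ∀ (v : TV m) (inst : Fintype {w // w = v ∨ (torus (m + 3)).Adj v w}),
      @Fintype.card {w // w = v ∨ (torus (m + 3)).Adj v w} inst ≤ 5 := by
    intro v inst
    have h1 := card_nbhd m v
    have h2 : inst = _ := Subsingleton.elim inst (Subtype.fintype _)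
    rw [h2]
    exact h1
  have h := surviveProb_le (torus (m + 3)) 5 (fun v => hD v _) T
    (((m + 3 : ℕ) : ℝ) ^ 2 - lowerSum T) (fun p hp => ?_) σ
  · have hc : (Fintype.card (TV m) : ℝ) = ((m + 3 : ℕ) : ℝ) ^ 2 := by
      rw [Fintype.card_prod, Fintype.card_fin]
      push_cast
      ring
    rw [hc] at h
    exact_mod_cast h
  · refine le_trans (Finset.sum_le_sum fun z _ => ?_) (sum_nonCatch_le m T hT p hp)
    split_ifs
    · exact nonCatch_nonneg _ _ _ _
    · exact le_rfl

end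

end Pool.Agent.K9h39.Zombie
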