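import Mathlib

set_option autoImplicit false

/-!
# Zombies and survivors

The game of zombies and survivors on a finite graph, its value and the zombie number, and the
toroidal grid.
-/

namespace Pool.Agent.K9h39.Zombie

open Finset

section Game

variable {V : Type} [Fintype V] (G : SimpleGraph V)

open Classical in
/-- The neighbours of `z` which lie on a shortest path from `z` to `v`. -/
noncomputable def closer (z v : V) : Finset V :=
  univ.filter fun w => G.Adj z w ∧ G.dist w v + 1 = G.dist z v

open Classical in
/-- The probability that a zombie at `z` moves to `w` if the survivor is at `v`: the zombie chooses
one of the neighbours of `z` which lie on a shortest path to `v`, uniformly at random. -/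
noncomputable def moveProb (z v w : V) : ℝ :=
  if w ∈ closer G z v then ((closer G z v).card : ℝ)⁻¹ else 0

open Classical in
/-- A strategy `σ` of the survivor gives his vertex as a function of the list of the positions of
the `k` zombies up to the present, the present positions first. `survive G σ t Z h` is the
conditional probability that a survivor with this strategy is not eaten during the next `t` rounds,
if the present positions of the zombies are `Z` and their former positions are `h`. In each round
the zombies move first, independently of each other. Then the survivor stays or moves to an adjacent
vertex (other moves are counted as a loss), and he must not be at a vertex with a zombie. -/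
noncomputable def survive {k : ℕ} (σ : List (Fin k → V) → V) :
    ℕ → (Fin k → V) → List (Fin k → V) → ℝ
  | 0, _, _ => 1
  | t + 1, Z, h => ∑ Z' : Fin k → V, (∏ i, moveProb G (Z i) (σ (Z :: h)) (Z' i)) *
      if (∀ i, Z' i ≠ σ (Z :: h)) ∧
          (σ (Z' :: Z :: h) = σ (Z :: h) ∨ G.Adj (σ (Z :: h)) (σ (Z' :: Z :: h))) ∧
          (∀ i, Z' i ≠ σ (Z' :: Z :: h))
      then survive σ t Z' (Z :: h) else 0

open Classical in
/-- The probability that a survivor with the strategy `σ` is not eaten during the first `t` rounds by
`k` zombies which start at independent uniformly distributed random vertices; the survivor chooses
his first vertex after he has seen the zombies. -/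
noncomputable def surviveProb {k : ℕ} (σ : List (Fin k → V) → V) (t : ℕ) : ℝ :=
  (∑ Z : Fin k → V, if ∀ i, Z i ≠ σ [Z] then survive G σ t Z [] else 0) /
    (Fintype.card V : ℝ) ^ k

/-- The probability `s_k(G)` that the survivor wins against `k` zombies under optimal play: the
supremum over his strategies of the probability that he is never eaten, which is the infimum over
`t` of the probability that he is not eaten during the first `t` rounds. -/
noncomputable def survivorValue (k : ℕ) : ℝ :=
  ⨆ σ : List (Fin k → V) → V, ⨅ t : ℕ, surviveProb G σ t

/-- The zombie number: the least number `k` of zombies with `s_k(G) ≤ 1/2`. -/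
noncomputable def zombieNumber : ℕ := sInf {k : ℕ | survivorValue G k ≤ 1 / 2}

end Game

/-- The toroidal `n × n` grid, the Cartesian product of two cycles of length `n`. -/
def torus (n : ℕ) : SimpleGraph (Fin n × Fin n) :=
  SimpleGraph.cycleGraph n □ SimpleGraph.cycleGraph n

end Pool.Agent.K9h39.Zombie
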