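import Pool.Agent.K9h39.Zombie.Compare

set_option autoImplicit false

/-! The bound for the zombie number of the toroidal grid. -/

namespace Pool.Agent.K9h39.Zombie

open Finset Filter

lemma surviveProb_nonneg {V : Type} [Fintype V] (G : SimpleGraph V) {k : ℕ}
    (σ : List (Fin k → V) → V) (t : ℕ) : 0 ≤ surviveProb G σ t := by
  classical
  unfold surviveProb
  refine div_nonneg (Finset.sum_nonneg fun Z _ => ?_) (by positivity)
  split_ifs
  · exact survive_nonneg _ _ _ _ _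
  · exact le_rfl

lemma sum_sqrt_lower (T : ℕ) : (2 / 3 : ℝ) * (T * Real.sqrt T) ≤ ∑ s ∈ range (T + 1), Real.sqrt s := by
  induction T with
  | zero => simp
  | succ T ih =>
    rw [Finset.sum_range_succ]
    push_cast at ih ⊢
    set a := Real.sqrt ((T : ℝ) + 1) with ha
    set b := Real.sqrt (T : ℝ) with hb
    have ha0 : 0 < a := Real.sqrt_pos.2 (by positivity)
    have hb0 : 0 ≤ b := Real.sqrt_nonneg _
    have ha2 : a ^ 2 = T + 1 := Real.sq_sqrt (by positivity)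
    have hb2 : b ^ 2 = T := Real.sq_sqrt (by positivity)
    have hab : b ≤ a := Real.sqrt_le_sqrt (by linarith)
    have h1 : (T : ℝ) * b = b ^ 3 := by rw [← hb2]; ring
    have h2 : ((T : ℝ) + 1) * a = a ^ 3 := by rw [← ha2]; ring
    rw [h1] at ih
    rw [h2]
    have h3 : a ^ 2 - b ^ 2 = 1 := by rw [ha2, hb2]; ring
    have h4 : 2 * (a ^ 3 - b ^ 3) ≤ 3 * a := by
      have h5 : (2 * (a ^ 3 - b ^ 3)) * (a + b) ≤ (3 * a) * (a + b) := by
        have h6 : (a ^ 3 - b ^ 3) * (a + b) = (a ^ 2 - b ^ 2) * (a ^ 2 + a * b + b ^ 2) := by ring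
        have h7 : 0 ≤ (a - b) * (a + 2 * b) := mul_nonneg (by linarith) (by linarith)
        calc (2 * (a ^ 3 - b ^ 3)) * (a + b) = 2 * ((a ^ 3 - b ^ 3) * (a + b)) := by ring
          _ = 2 * (a ^ 2 + a * b + b ^ 2) := by rw [h6, h3, one_mul]
          _ ≤ _ := by nlinarith
      exact le_of_mul_le_mul_right h5 (by linarith)
    linarith

lemma lowerSum_lower (T : ℕ) : (10 / 27 : ℝ) * (T * Real.sqrt T) ≤ lowerSum (T + 1) := by
  have h1 := sum_sqrt_lower T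
  have h2 : (5 / 9 : ℝ) * ∑ s ∈ range (T + 1), Real.sqrt s ≤ lowerSum (T + 1) := by
    unfold lowerSum
    rw [Finset.mul_sum]
    refine Finset.sum_le_sum fun s _ => ?_
    have := b_zero_lower s
    linarith
  linarith

lemma five_le : (5 : ℝ) ≤ Real.exp (17 / 10) := by
  have h1 : (5 : ℝ) ^ 10 ≤ Real.exp (17 / 10) ^ 10 := by
    rw [← Real.exp_nat_mul]
    have h2 : ((10 : ℕ) : ℝ) * (17 / 10) = ((17 : ℕ) : ℝ) * 1 := by norm_num
    rw [h2, Real.exp_nat_mul]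
    have h3 : (2.7 : ℝ) ≤ Real.exp 1 := by
      have := Real.exp_one_gt_d9
      linarith
    calc (5 : ℝ) ^ 10 ≤ 2.7 ^ 17 := by norm_num
      _ ≤ _ := pow_le_pow_left₀ (by norm_num) h3 17
  exact le_of_pow_le_pow_left₀ (by norm_num) (Real.exp_pos _).le h1

lemma numeric (N A : ℝ) (T k : ℕ) (hN1 : (1000 : ℝ) ≤ N) (hlog : Real.log N ≤ (1 / 1000) * N)
    (hTN1 : 4 * ((T : ℝ) + 1) + 2 ≤ N) (hTN2 : N ≤ 4 * (T : ℝ) + 9)
    (hkN : 10 * (N * Real.sqrt N) - 1 ≤ k) (hA1 : (10 / 27 : ℝ) * (T * Real.sqrt T) ≤ A)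
    (hA0 : 0 ≤ (N ^ 2 - A) / N ^ 2) :
    N ^ 2 * 5 ^ (T + 1) * ((N ^ 2 - A) / N ^ 2) ^ k ≤ 1 / 2 := by
  have hsq : 0 ≤ Real.sqrt N := Real.sqrt_nonneg _
  have hsq2 : Real.sqrt N ^ 2 = N := Real.sq_sqrt (by linarith)
  have hsq1 : 1 ≤ Real.sqrt N := by
    rw [show (1 : ℝ) = Real.sqrt 1 by simp]
    exact Real.sqrt_le_sqrt (by linarith)
  have hTN3 : (97 / 400 : ℝ) * N ≤ T := by linarith
  have hsqT : (49 / 100 : ℝ) * Real.sqrt N ≤ Real.sqrt T := by
    have h1 : Real.sqrt ((49 / 100 : ℝ) ^ 2 * N) = (49 / 100 : ℝ) * Real.sqrt N := by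
      rw [Real.sqrt_mul (by positivity), Real.sqrt_sq (by norm_num)]
    rw [← h1]
    apply Real.sqrt_le_sqrt
    linarith
  have hNs : 0 ≤ N * Real.sqrt N := mul_nonneg (by linarith) hsq
  have hA2 : (87 / 2000 : ℝ) * (N * Real.sqrt N) ≤ A := by
    have h1 : (97 / 400 : ℝ) * N * ((49 / 100 : ℝ) * Real.sqrt N) ≤ T * Real.sqrt T := by
      apply mul_le_mul hTN3 hsqT (by positivity) (by positivity)
    have h2 : (97 / 400 : ℝ) * N * ((49 / 100 : ℝ) * Real.sqrt N) =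
      (97 / 400 * (49 / 100)) * (N * Real.sqrt N) := by ring
    rw [h2] at h1
    linarith
  have hkA : (173 / 400 : ℝ) * N ≤ k * A / N ^ 2 := by
    rw [le_div_iff₀ (by positivity)]
    have h1 : (999 / 100 : ℝ) * (N * Real.sqrt N) ≤ k := by
      have h0 : N * 1 ≤ N * Real.sqrt N := mul_le_mul_of_nonneg_left hsq1 (by linarith)
      linarith
    have h2 : (999 / 100 : ℝ) * (N * Real.sqrt N) * ((87 / 2000 : ℝ) * (N * Real.sqrt N)) ≤ k * A :=
      mul_le_mul h1 hA2 (by positivity) (by positivity)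
    have h3 : (999 / 100 : ℝ) * (N * Real.sqrt N) * ((87 / 2000 : ℝ) * (N * Real.sqrt N)) =
        999 / 100 * (87 / 2000) * N ^ 2 * (Real.sqrt N ^ 2) := by ring
    rw [h3, hsq2] at h2
    have h4 : (173 / 400 : ℝ) * N * N ^ 2 ≤ 999 / 100 * (87 / 2000) * N ^ 2 * N := by
      have h5 : (0 : ℝ) ≤ N ^ 3 := by positivity
      have h6 : (173 / 400 : ℝ) * N * N ^ 2 = 173 / 400 * N ^ 3 := by ring
      have h7 : 999 / 100 * (87 / 2000) * N ^ 2 * N = 999 / 100 * (87 / 2000) * N ^ 3 := by ring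
      rw [h6, h7]
      linarith
    linarith
  have hexp : (N ^ 2 - A) / N ^ 2 ≤ Real.exp (-(A / N ^ 2)) := by
    have h1 := Real.add_one_le_exp (-(A / N ^ 2))
    have h2 : (N ^ 2 - A) / N ^ 2 = -(A / N ^ 2) + 1 := by
      have : N ^ 2 ≠ 0 := by positivity
      field_simp
      ring
    rw [h2]
    exact h1
  have h1 : ((N ^ 2 - A) / N ^ 2) ^ k ≤ Real.exp (-(k * A / N ^ 2)) := by
    calc ((N ^ 2 - A) / N ^ 2) ^ k ≤ Real.exp (-(A / N ^ 2)) ^ k :=
          pow_le_pow_left₀ hA0 hexp k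
      _ = Real.exp (-(k * A / N ^ 2)) := by
          rw [← Real.exp_nat_mul]
          congr 1
          ring
  have h2 : (5 : ℝ) ^ (T + 1) ≤ Real.exp ((17 / 40) * N) := by
    calc (5 : ℝ) ^ (T + 1) ≤ Real.exp (17 / 10) ^ (T + 1) :=
          pow_le_pow_left₀ (by norm_num) five_le _
      _ = Real.exp (((T + 1 : ℕ) : ℝ) * (17 / 10)) := by rw [← Real.exp_nat_mul]
      _ ≤ _ := by
          apply Real.exp_le_exp.2
          push_cast
          linarith
  have h3 : N ^ 2 ≤ Real.exp ((1 / 500) * N) := by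
    have h4 : N = Real.exp (Real.log N) := (Real.exp_log (by linarith)).symm
    calc N ^ 2 = Real.exp (Real.log N) ^ 2 := by rw [← h4]
      _ = Real.exp (2 * Real.log N) := by rw [← Real.exp_nat_mul]; norm_num
      _ ≤ _ := by
        apply Real.exp_le_exp.2
        linarith
  calc N ^ 2 * 5 ^ (T + 1) * ((N ^ 2 - A) / N ^ 2) ^ k
      ≤ Real.exp ((1 / 500) * N) * Real.exp ((17 / 40) * N) * Real.exp (-(k * A / N ^ 2)) := by
        apply mul_le_mul _ h1 (pow_nonneg hA0 k) (by positivity)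
        exact mul_le_mul h3 h2 (by positivity) (Real.exp_pos _).le
    _ = Real.exp ((1 / 500) * N + (17 / 40) * N - k * A / N ^ 2) := by
        rw [← Real.exp_add, ← Real.exp_add]
        ring_nf
    _ ≤ Real.exp (-1) := by
        apply Real.exp_le_exp.2
        linarith
    _ ≤ 1 / 2 := by
        rw [Real.exp_neg, one_div]
        apply inv_anti₀ two_pos
        have := Real.exp_one_gt_d9
        linarith

/-- For large `n` a survivor on the toroidal grid is eaten with probability at least `1/2` by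
`10 n ^ (3/2)` zombies. -/
lemma survivorValue_le : ∀ᶠ n : ℕ in atTop,
    survivorValue (torus n) ⌊10 * ((n : ℝ) * Real.sqrt n)⌋₊ ≤ 1 / 2 := by
  have hlog : ∀ᶠ x : ℝ in atTop, Real.log x ≤ (1 / 1000) * x := by
    have h := (Real.isLittleO_log_id_atTop).def (show (0 : ℝ) < 1 / 1000 by norm_num)
    filter_upwards [h, eventually_ge_atTop (1 : ℝ)] with x hx hx1
    rw [Real.norm_eq_abs, Real.norm_eq_abs, id, abs_of_nonneg (by linarith : (0 : ℝ) ≤ x)] at hx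
    exact (le_abs_self _).trans hx
  filter_upwards [(tendsto_natCast_atTop_atTop (R := ℝ)).eventually hlog,
    (tendsto_natCast_atTop_atTop (R := ℝ)).eventually (eventually_ge_atTop (1000 : ℝ)),
    eventually_ge_atTop 9] with n hn hn1 hn3
  obtain ⟨m, rfl⟩ : ∃ m, n = m + 3 := ⟨n - 3, by omega⟩
  -- the number of rounds
  obtain ⟨T, hT1, hT2⟩ : ∃ T : ℕ, 4 * (T + 1) + 2 ≤ m + 3 ∧ m + 3 ≤ 4 * T + 9 :=
    ⟨(m + 3 - 6) / 4, by omega, by omega⟩
  have hTN1 : 4 * ((T : ℝ) + 1) + 2 ≤ ((m + 3 : ℕ) : ℝ) := by exact_mod_cast hT1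
  have hTN2 : ((m + 3 : ℕ) : ℝ) ≤ 4 * (T : ℝ) + 9 := by exact_mod_cast hT2
  have hkN : 10 * (((m + 3 : ℕ) : ℝ) * Real.sqrt ((m + 3 : ℕ) : ℝ)) - 1 ≤
      (⌊10 * (((m + 3 : ℕ) : ℝ) * Real.sqrt ((m + 3 : ℕ) : ℝ))⌋₊ : ℝ) := by
    have := Nat.lt_floor_add_one (10 * (((m + 3 : ℕ) : ℝ) * Real.sqrt ((m + 3 : ℕ) : ℝ)))
    linarith
  have hbase : 0 ≤ (((m + 3 : ℕ) : ℝ) ^ 2 - lowerSum (T + 1)) / ((m + 3 : ℕ) : ℝ) ^ 2 := by
    apply div_nonneg _ (by positivity)
    have h1 := sum_nonCatch_le m (T + 1) hT1 (fun _ => (0 : TV m)) (fun _ => Or.inl rfl)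
    have h2 : 0 ≤ ∑ z, nonCatch (torus (m + 3)) (T + 1) (fun _ => (0 : TV m)) z :=
      Finset.sum_nonneg fun z _ => nonCatch_nonneg _ _ _ _
    exact h2.trans h1
  have hbound := numeric ((m + 3 : ℕ) : ℝ) (lowerSum (T + 1)) T _ hn1 hn hTN1 hTN2 hkN
    (lowerSum_lower T) hbase
  unfold survivorValue
  refine ciSup_le fun σ => ?_
  refine (ciInf_le ⟨0, ?_⟩ (T + 1)).trans ((surviveProb_torus m (T + 1) hT1 σ).trans hbound)
  rintro _ ⟨t, rfl⟩
  exact surviveProb_nonneg _ _ _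

end Pool.Agent.K9h39.Zombie
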