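import Pool.Agent.K9h39.Zombie.Walk

set_option autoImplicit false

/-! Zombies in the plane grid: the total probability of catching a given trajectory. -/

namespace Pool.Agent.K9h39.Zombie

open scoped ENNReal
open Finset

/-- one step from `x` towards `c` -/
def tow (c x : ℤ) : ℤ := if c < x then x - 1 else if x < c then x + 1 else x

lemma tow_gt {c x : ℤ} (h : c < x) : tow c x = x - 1 := if_pos h
lemma tow_lt {c x : ℤ} (h : x < c) : tow c x = x + 1 := by
  unfold tow; rw [if_neg (by omega), if_pos h]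

lemma tsum_tow (g : ℤ → ℝ≥0∞) (c : ℤ) :
    ∑' x, (if x ≠ c then g (tow c x) else 0) = (∑' x, g x) + g c := by
  have h1 : ∀ x, (if x ≠ c then g (tow c x) else 0) =
      (if c < x then g (x - 1) else 0) + (if x < c then g (x + 1) else 0) := by
    intro x
    rcases lt_trichotomy x c with h | h | h
    · rw [if_pos h.ne, if_neg (by omega), if_pos h, tow_lt h, zero_add]
    · subst h; simp
    · rw [if_pos h.ne', if_pos h, if_neg (by omega), tow_gt h, add_zero]
  have h2 : ∑' x : ℤ, (if c < x then g (x - 1) else 0) = ∑' x : ℤ, (if c ≤ x then g x else 0) := by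
    rw [← (Equiv.addRight (1 : ℤ)).tsum_eq]
    refine tsum_congr fun x => ?_
    simp only [Equiv.coe_addRight, add_sub_cancel_right]
    by_cases h : c ≤ x
    · rw [if_pos h, if_pos (by omega)]
    · rw [if_neg h, if_neg (by omega)]
  have h3 : ∑' x : ℤ, (if x < c then g (x + 1) else 0) = ∑' x : ℤ, (if x ≤ c then g x else 0) := by
    rw [← (Equiv.addRight (-1 : ℤ)).tsum_eq]
    refine tsum_congr fun x => ?_
    simp only [Equiv.coe_addRight, neg_add_cancel_right]
    by_cases h : x ≤ c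
    · rw [if_pos h, if_pos (by omega)]
    · rw [if_neg h, if_neg (by omega)]
  rw [tsum_congr h1, ENNReal.tsum_add, h2, h3, ← ENNReal.tsum_add]
  have h4 : ∀ x, ((if c ≤ x then g x else 0) + (if x ≤ c then g x else 0)) =
      g x + (if x = c then g c else 0) := by
    intro x
    rcases lt_trichotomy x c with h | h | h
    · rw [if_neg (by omega), if_pos h.le, if_neg h.ne, zero_add, add_zero]
    · subst h; simp
    · rw [if_pos h.le, if_neg (by omega), if_neg h.ne']
  rw [tsum_congr h4, ENNReal.tsum_add, tsum_ite_eq]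

/-- the value after the moves of the zombie and the survivor -/
noncomputable def after (P₀ P₁ : ℤ × ℤ) (f : ℤ × ℤ → ℝ≥0∞) (w : ℤ × ℤ) : ℝ≥0∞ :=
  if w = P₀ ∨ w = P₁ then 1 else f w

/-- first kind of move: horizontal if possible -/
noncomputable def stepU (P₀ : ℤ × ℤ) (h : ℤ × ℤ → ℝ≥0∞) (z : ℤ × ℤ) : ℝ≥0∞ :=
  if z.1 ≠ P₀.1 then h (tow P₀.1 z.1, z.2) else if z.2 ≠ P₀.2 then h (z.1, tow P₀.2 z.2) else 1

/-- second kind of move: vertical if possible -/
noncomputable def stepV (P₀ : ℤ × ℤ) (h : ℤ × ℤ → ℝ≥0∞) (z : ℤ × ℤ) : ℝ≥0∞ :=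
  if z.2 ≠ P₀.2 then h (z.1, tow P₀.2 z.2) else if z.1 ≠ P₀.1 then h (tow P₀.1 z.1, z.2) else 1

/-- The probability that a zombie in the plane grid which starts at `z` catches a survivor with the
trajectory `P` during the first `T` rounds. -/
noncomputable def plane : ℕ → (ℕ → ℤ × ℤ) → ℤ × ℤ → ℝ≥0∞
  | 0, _, _ => 0
  | T + 1, P, z => 2⁻¹ * (stepU (P 0) (after (P 0) (P 1) (plane T fun t => P (t + 1))) z +
      stepV (P 0) (after (P 0) (P 1) (plane T fun t => P (t + 1))) z)

/-- sum over a row -/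
noncomputable def row (f : ℤ × ℤ → ℝ≥0∞) (y : ℤ) : ℝ≥0∞ := ∑' x, f (x, y)
/-- sum over a column -/
noncomputable def col (f : ℤ × ℤ → ℝ≥0∞) (x : ℤ) : ℝ≥0∞ := ∑' y, f (x, y)
/-- sum over the plane -/
noncomputable def total (f : ℤ × ℤ → ℝ≥0∞) : ℝ≥0∞ := ∑' z, f z

lemma total_eq_row (f : ℤ × ℤ → ℝ≥0∞) : total f = ∑' y, row f y := by
  unfold total row
  rw [ENNReal.tsum_prod', ENNReal.tsum_comm]

lemma row_add (f g : ℤ × ℤ → ℝ≥0∞) (y : ℤ) : row (fun z => f z + g z) y = row f y + row g y :=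
  ENNReal.tsum_add

lemma row_stepU_ne {P₀ : ℤ × ℤ} (h : ℤ × ℤ → ℝ≥0∞) {y : ℤ} (hy : y ≠ P₀.2) :
    row (stepU P₀ h) y = row h y + h (P₀.1, y) + h (P₀.1, tow P₀.2 y) := by
  unfold row
  have h1 : ∀ x, stepU P₀ h (x, y) = (if x ≠ P₀.1 then h (tow P₀.1 x, y) else 0) +
      (if x = P₀.1 then h (P₀.1, tow P₀.2 y) else 0) := by
    intro x
    unfold stepU
    by_cases hx : x = P₀.1
    · subst hx; simp [hy]
    · simp [hx]
  rw [tsum_congr h1, ENNReal.tsum_add, tsum_tow (fun x => h (x, y)) P₀.1, tsum_ite_eq]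

lemma row_stepV_ne {P₀ : ℤ × ℤ} (h : ℤ × ℤ → ℝ≥0∞) {y : ℤ} (hy : y ≠ P₀.2) :
    row (stepV P₀ h) y = row h (tow P₀.2 y) := by
  unfold row
  refine tsum_congr fun x => ?_
  unfold stepV
  rw [if_pos hy]

lemma row_stepU_eq {P₀ : ℤ × ℤ} (h : ℤ × ℤ → ℝ≥0∞) :
    row (stepU P₀ h) P₀.2 = row h P₀.2 + h P₀ + 1 := by
  unfold row
  have h1 : ∀ x, stepU P₀ h (x, P₀.2) = (if x ≠ P₀.1 then h (tow P₀.1 x, P₀.2) else 0) +
      (if x = P₀.1 then 1 else 0) := by
    intro x
    unfold stepU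
    by_cases hx : x = P₀.1
    · subst hx; simp
    · simp [hx]
  rw [tsum_congr h1, ENNReal.tsum_add, tsum_tow (fun x => h (x, P₀.2)) P₀.1, tsum_ite_eq]

lemma row_stepV_eq {P₀ : ℤ × ℤ} (h : ℤ × ℤ → ℝ≥0∞) :
    row (stepV P₀ h) P₀.2 = row h P₀.2 + h P₀ + 1 := by
  unfold row
  have h1 : ∀ x, stepV P₀ h (x, P₀.2) = (if x ≠ P₀.1 then h (tow P₀.1 x, P₀.2) else 0) +
      (if x = P₀.1 then 1 else 0) := by
    intro x
    unfold stepV
    by_cases hx : x = P₀.1
    · subst hx; simp
    · simp [hx]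
  rw [tsum_congr h1, ENNReal.tsum_add, tsum_tow (fun x => h (x, P₀.2)) P₀.1, tsum_ite_eq]

lemma total_stepU (P₀ : ℤ × ℤ) (h : ℤ × ℤ → ℝ≥0∞) :
    total (stepU P₀ h) = total h + 2 * col h P₀.1 + h P₀ + 1 := by
  rw [total_eq_row, total_eq_row h]
  have h1 : ∀ y, row (stepU P₀ h) y = row h y + h (P₀.1, y) +
      ((if y ≠ P₀.2 then h (P₀.1, tow P₀.2 y) else 0) + (if y = P₀.2 then 1 else 0)) := by
    intro y
    by_cases hy : y = P₀.2
    · subst hy
      rw [row_stepU_eq]; simp
    · rw [row_stepU_ne h hy]; simp [hy]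
  rw [tsum_congr h1, ENNReal.tsum_add, ENNReal.tsum_add, ENNReal.tsum_add,
    tsum_tow (fun y => h (P₀.1, y)) P₀.2, tsum_ite_eq]
  unfold col
  rw [two_mul]
  ring

lemma total_stepV (P₀ : ℤ × ℤ) (h : ℤ × ℤ → ℝ≥0∞) :
    total (stepV P₀ h) = total h + 2 * row h P₀.2 + h P₀ + 1 := by
  rw [total_eq_row, total_eq_row h]
  have h1 : ∀ y, row (stepV P₀ h) y = 
      (if y ≠ P₀.2 then row h (tow P₀.2 y) else 0) +
        (if y = P₀.2 then (row h P₀.2 + h P₀ + 1) else 0) := by
    intro y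
    by_cases hy : y = P₀.2
    · subst hy
      rw [row_stepV_eq]; simp
    · rw [row_stepV_ne h hy]; simp [hy]
  rw [tsum_congr h1, ENNReal.tsum_add, tsum_tow (fun y => row h y) P₀.2, tsum_ite_eq]
  rw [two_mul]
  ring

lemma half_two (a : ℝ≥0∞) : 2⁻¹ * (2 * a) = a := by
  rw [← mul_assoc, ENNReal.inv_mul_cancel (by norm_num) (by norm_num), one_mul]

lemma after_self (P₀ P₁ : ℤ × ℤ) (f : ℤ × ℤ → ℝ≥0∞) : after P₀ P₁ f P₀ = 1 := if_pos (Or.inl rfl)

lemma total_plane_succ (T : ℕ) (P : ℕ → ℤ × ℤ) :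
    total (plane (T + 1) P) = total (after (P 0) (P 1) (plane T fun t => P (t + 1))) +
      col (after (P 0) (P 1) (plane T fun t => P (t + 1))) (P 0).1 +
      row (after (P 0) (P 1) (plane T fun t => P (t + 1))) (P 0).2 + 2 := by
  have h1 : total (plane (T + 1) P) = 2⁻¹ *
      (total (stepU (P 0) (after (P 0) (P 1) (plane T fun t => P (t + 1)))) +
        total (stepV (P 0) (after (P 0) (P 1) (plane T fun t => P (t + 1))))) := by
    unfold total
    rw [← ENNReal.tsum_add, ← ENNReal.tsum_mul_left]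
    rfl
  rw [h1, total_stepU, total_stepV, after_self]
  rw [← half_two (_ + 2)]
  congr 1
  ring

lemma row_plane_eq (T : ℕ) (P : ℕ → ℤ × ℤ) :
    row (plane (T + 1) P) (P 0).2 =
      row (after (P 0) (P 1) (plane T fun t => P (t + 1))) (P 0).2 + 2 := by
  have h1 : row (plane (T + 1) P) (P 0).2 = 2⁻¹ *
      (row (stepU (P 0) (after (P 0) (P 1) (plane T fun t => P (t + 1)))) (P 0).2 +
        row (stepV (P 0) (after (P 0) (P 1) (plane T fun t => P (t + 1)))) (P 0).2) := by
    unfold row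
    rw [← ENNReal.tsum_add, ← ENNReal.tsum_mul_left]
    rfl
  rw [h1, row_stepU_eq, row_stepV_eq, after_self]
  rw [← half_two (_ + 2)]
  congr 1
  ring

lemma row_plane_ne (T : ℕ) (P : ℕ → ℤ × ℤ) {y : ℤ} (hy : y ≠ (P 0).2) :
    2⁻¹ * (row (after (P 0) (P 1) (plane T fun t => P (t + 1))) y +
      row (after (P 0) (P 1) (plane T fun t => P (t + 1))) (tow (P 0).2 y)) ≤
    row (plane (T + 1) P) y := by
  have h1 : row (plane (T + 1) P) y = 2⁻¹ *
      (row (stepU (P 0) (after (P 0) (P 1) (plane T fun t => P (t + 1)))) y +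
        row (stepV (P 0) (after (P 0) (P 1) (plane T fun t => P (t + 1)))) y) := by
    unfold row
    rw [← ENNReal.tsum_add, ← ENNReal.tsum_mul_left]
    rfl
  rw [h1, row_stepU_ne _ hy, row_stepV_ne _ hy]
  gcongr
  rw [add_assoc]
  exact le_self_add

lemma plane_le_one (T : ℕ) : ∀ (P : ℕ → ℤ × ℤ) (z : ℤ × ℤ), plane T P z ≤ 1 := by
  induction T with
  | zero => intro P z; exact zero_le_one
  | succ T ih =>
    intro P z
    have h1 : ∀ w, after (P 0) (P 1) (plane T fun t => P (t + 1)) w ≤ 1 := by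
      intro w
      unfold after
      split_ifs
      · exact le_rfl
      · exact ih _ _
    have h2 : stepU (P 0) (after (P 0) (P 1) (plane T fun t => P (t + 1))) z ≤ 1 := by
      unfold stepU
      split_ifs
      · exact h1 _
      · exact h1 _
      · exact le_rfl
    have h3 : stepV (P 0) (after (P 0) (P 1) (plane T fun t => P (t + 1))) z ≤ 1 := by
      unfold stepV
      split_ifs
      · exact h1 _
      · exact h1 _
      · exact le_rfl
    calc plane (T + 1) P z ≤ 2⁻¹ * (1 + 1) := by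
          unfold plane
          gcongr
      _ = 1 := by
          rw [one_add_one_eq_two, ENNReal.inv_mul_cancel (by norm_num) (by norm_num)]

lemma le_after (T : ℕ) (P : ℕ → ℤ × ℤ) (P₀ P₁ : ℤ × ℤ) (w : ℤ × ℤ) :
    plane T P w ≤ after P₀ P₁ (plane T P) w := by
  unfold after
  split_ifs
  · exact plane_le_one _ _ _
  · exact le_rfl

lemma row_mono {f g : ℤ × ℤ → ℝ≥0∞} (h : ∀ z, f z ≤ g z) (y : ℤ) : row f y ≤ row g y :=
  ENNReal.tsum_le_tsum fun x => h (x, y)

lemma col_mono {f g : ℤ × ℤ → ℝ≥0∞} (h : ∀ z, f z ≤ g z) (x : ℤ) : col f x ≤ col g x :=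
  ENNReal.tsum_le_tsum fun y => h (x, y)

lemma total_mono {f g : ℤ × ℤ → ℝ≥0∞} (h : ∀ z, f z ≤ g z) : total f ≤ total g :=
  ENNReal.tsum_le_tsum fun z => h z

/-- the number of vertical moves -/
def vcount : ℕ → (ℕ → ℤ × ℤ) → ℕ
  | 0, _ => 0
  | T + 1, P => (if (P 1).2 = (P 0).2 then 0 else 1) + vcount T (fun t => P (t + 1))

/-- steps change each coordinate by at most one, and only one of them -/
def LegalZ (P : ℕ → ℤ × ℤ) : Prop :=
  ∀ t, |(P (t + 1)).1 - (P t).1| + |(P (t + 1)).2 - (P t).2| ≤ 1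

lemma LegalZ.shift {P : ℕ → ℤ × ℤ} (h : LegalZ P) : LegalZ (fun t => P (t + 1)) :=
  fun t => h (t + 1)

lemma row_lower (T : ℕ) : ∀ (P : ℕ → ℤ × ℤ), LegalZ P → ∀ y : ℤ,
    ENNReal.ofReal (2 * b T (T - 2 * vcount T P - 2 * |y - (P 0).2|)) ≤ row (plane T P) y := by
  induction T with
  | zero =>
    intro P _ y
    have h : b 0 ((0 : ℕ) - 2 * vcount 0 P - 2 * |y - (P 0).2|) = 0 := by
      rw [b_zero]
      apply max_eq_right
      have : ((0 : ℕ) - 2 * (vcount 0 P : ℤ) - 2 * |y - (P 0).2| : ℤ) ≤ 0 := by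
        have := abs_nonneg (y - (P 0).2)
        omega
      exact_mod_cast this
    rw [h]
    simp
  | succ T ih =>
    intro P hP y
    set P' : ℕ → ℤ × ℤ := fun t => P (t + 1) with hP'
    have hstep := hP 0
    have hv : ((vcount (T + 1) P : ℕ) : ℤ) =
        (if (P 1).2 = (P 0).2 then 0 else 1) + (vcount T P' : ℤ) := by
      rw [vcount]
      push_cast
      rfl
    have hd : |(P' 0).2 - (P 0).2| ≤ if (P 1).2 = (P 0).2 then 0 else 1 := by
      change |(P 1).2 - (P 0).2| ≤ _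
      split_ifs with h
      · rw [h, sub_self, abs_zero]
      · have := abs_nonneg ((P (0 + 1)).1 - (P 0).1)
        have h2 : (P (0 + 1)) = P 1 := rfl
        rw [h2] at hstep this
        linarith
    set v : ℤ := if (P 1).2 = (P 0).2 then 0 else 1 with hvdef
    by_cases hy : y = (P 0).2
    · subst hy
      rw [row_plane_eq]
      have h1 := ih P' hP.shift (P 0).2
      have h2 : row (plane T P') (P 0).2 ≤ row (after (P 0) (P 1) (plane T P')) (P 0).2 :=
        row_mono (fun w => le_after _ _ _ _ _) _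
      refine le_trans ?_ (add_le_add_left (h1.trans h2) 2)
      have h3 : (2 : ℝ≥0∞) = ENNReal.ofReal 2 := by simp
      rw [h3, ← ENNReal.ofReal_add (mul_nonneg zero_le_two (b_nonneg _ _)) zero_le_two]
      apply ENNReal.ofReal_le_ofReal
      have h4 : b (T + 1) (((T + 1 : ℕ) : ℤ) - 2 * vcount (T + 1) P - 2 * |(P 0).2 - (P 0).2|) ≤
          b T (T - 2 * vcount (T + 1) P) + 1 := by
        rw [b_succ, sub_self, abs_zero]
        have h5 := b_lip T (T - 2 * vcount (T + 1) P) (T - 2 * vcount (T + 1) P + 2) (by omega)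
        have h6 : ((T + 1 : ℕ) : ℤ) - 2 * (vcount (T + 1) P : ℤ) - 2 * 0 + 1 =
          T - 2 * vcount (T + 1) P + 2 := by push_cast; ring
        have h7 : ((T + 1 : ℕ) : ℤ) - 2 * (vcount (T + 1) P : ℤ) - 2 * 0 - 1 =
          T - 2 * vcount (T + 1) P := by push_cast; ring
        rw [h6, h7]
        push_cast at h5 ⊢
        linarith
      have h8 : b T (T - 2 * vcount (T + 1) P) ≤ b T (T - 2 * vcount T P' - 2 * |(P 0).2 - (P' 0).2|) := by
        apply b_mono
        rw [hv, abs_sub_comm]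
        linarith
      linarith
    · refine le_trans ?_ (row_plane_ne T P hy)
      have h1 := ih P' hP.shift y
      have h2 := ih P' hP.shift (tow (P 0).2 y)
      have h3 : row (plane T P') y ≤ row (after (P 0) (P 1) (plane T P')) y :=
        row_mono (fun w => le_after _ _ _ _ _) _
      have h4 : row (plane T P') (tow (P 0).2 y) ≤
          row (after (P 0) (P 1) (plane T P')) (tow (P 0).2 y) :=
        row_mono (fun w => le_after _ _ _ _ _) _
      refine le_trans ?_ (mul_le_mul_right (add_le_add (h1.trans h3) (h2.trans h4)) _)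
      rw [← ENNReal.ofReal_add (mul_nonneg zero_le_two (b_nonneg _ _))
        (mul_nonneg zero_le_two (b_nonneg _ _))]
      have h5 : (2 : ℝ≥0∞)⁻¹ = ENNReal.ofReal (2⁻¹) := by
        rw [ENNReal.ofReal_inv_of_pos two_pos]; simp
      rw [h5, ← ENNReal.ofReal_mul (by norm_num)]
      apply ENNReal.ofReal_le_ofReal
      have h6 : b T (((T + 1 : ℕ) : ℤ) - 2 * vcount (T + 1) P - 2 * |y - (P 0).2| - 1) ≤
          b T (T - 2 * vcount T P' - 2 * |y - (P' 0).2|) := by
        apply b_mono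
        rw [hv]
        have : |y - (P' 0).2| ≤ |y - (P 0).2| + |(P' 0).2 - (P 0).2| := by
          have := abs_sub_le y (P 0).2 (P' 0).2
          rwa [abs_sub_comm (P 0).2] at this
        push_cast
        linarith
      have h7 : b T (((T + 1 : ℕ) : ℤ) - 2 * vcount (T + 1) P - 2 * |y - (P 0).2| + 1) ≤
          b T (T - 2 * vcount T P' - 2 * |tow (P 0).2 y - (P' 0).2|) := by
        apply b_mono
        rw [hv]
        have h8 : |tow (P 0).2 y - (P 0).2| = |y - (P 0).2| - 1 := by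
          rcases lt_or_gt_of_ne hy with h | h
          · rw [tow_lt h, abs_of_nonpos (by linarith), abs_of_nonpos (by linarith)]
            ring
          · rw [tow_gt h, abs_of_nonneg (by linarith), abs_of_nonneg (by linarith)]
            ring
        have : |tow (P 0).2 y - (P' 0).2| ≤ |tow (P 0).2 y - (P 0).2| + |(P' 0).2 - (P 0).2| := by
          have := abs_sub_le (tow (P 0).2 y) (P 0).2 (P' 0).2
          rwa [abs_sub_comm (P 0).2] at this
        push_cast
        linarith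
      rw [b_succ]
      linarith

end Pool.Agent.K9h39.Zombie
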