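import Pool.Agent.K9h39.Zombie.Plane

set_option autoImplicit false

/-! The total probability of catching a given trajectory, continued. -/

namespace Pool.Agent.K9h39.Zombie

open scoped ENNReal
open Finset

lemma after_swap (P₀ P₁ : ℤ × ℤ) (f : ℤ × ℤ → ℝ≥0∞) (w : ℤ × ℤ) :
    after P₀.swap P₁.swap f w.swap = after P₀ P₁ (fun z => f z.swap) w := by
  unfold after
  simp only [Prod.swap_inj]

lemma stepU_swap (P₀ : ℤ × ℤ) (h : ℤ × ℤ → ℝ≥0∞) (z : ℤ × ℤ) :
    stepU P₀.swap h z.swap = stepV P₀ (fun z => h z.swap) z := by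
  unfold stepU stepV
  simp only [Prod.fst_swap, Prod.snd_swap, Prod.swap_prod_mk]

lemma stepV_swap (P₀ : ℤ × ℤ) (h : ℤ × ℤ → ℝ≥0∞) (z : ℤ × ℤ) :
    stepV P₀.swap h z.swap = stepU P₀ (fun z => h z.swap) z := by
  unfold stepU stepV
  simp only [Prod.fst_swap, Prod.snd_swap, Prod.swap_prod_mk]

lemma plane_swap (T : ℕ) : ∀ (P : ℕ → ℤ × ℤ) (z : ℤ × ℤ),
    plane T (fun t => (P t).swap) z.swap = plane T P z := by
  induction T with
  | zero => intro P z; rfl
  | succ T ih =>
    intro P z
    have h : (fun w : ℤ × ℤ => after (P 0).swap (P 1).swap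
        (plane T fun t => (P (t + 1)).swap) w.swap) =
        after (P 0) (P 1) (plane T fun t => P (t + 1)) := by
      funext w
      rw [after_swap]
      congr 1
      funext z
      exact ih (fun t => P (t + 1)) z
    unfold plane
    rw [stepU_swap, stepV_swap, h, add_comm]

lemma col_plane (T : ℕ) (P : ℕ → ℤ × ℤ) (x : ℤ) :
    col (plane T P) x = row (plane T fun t => (P t).swap) x := by
  unfold col row
  refine tsum_congr fun y => ?_
  exact (plane_swap T P (x, y)).symm

lemma LegalZ.swap {P : ℕ → ℤ × ℤ} (h : LegalZ P) : LegalZ (fun t => (P t).swap) := by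
  intro t
  have := h t
  simp only [Prod.fst_swap, Prod.snd_swap]
  rw [add_comm]
  exact this

lemma count_add (T : ℕ) : ∀ (P : ℕ → ℤ × ℤ), LegalZ P →
    vcount T P + vcount T (fun t => (P t).swap) ≤ T := by
  induction T with
  | zero => intro P _; exact le_rfl
  | succ T ih =>
    intro P hP
    have h1 := ih (fun t => P (t + 1)) hP.shift
    have h2 := hP 0
    simp only [vcount, Prod.snd_swap]
    have h3 : (if (P 1).2 = (P 0).2 then 0 else 1) + (if (P 1).1 = (P 0).1 then 0 else 1) ≤ 1 := by
      split_ifs with ha hb hb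
      · norm_num
      · norm_num
      · norm_num
      · exfalso
        have h4 : 1 ≤ |(P 1).2 - (P 0).2| := Int.one_le_abs (sub_ne_zero.2 ha)
        have h5 : 1 ≤ |(P 1).1 - (P 0).1| := Int.one_le_abs (sub_ne_zero.2 hb)
        have h6 : P (0 + 1) = P 1 := rfl
        rw [h6] at h2
        linarith
    omega

lemma total_step (T : ℕ) (P : ℕ → ℤ × ℤ) (hP : LegalZ P) :
    total (plane T fun t => P (t + 1)) + ENNReal.ofReal (2 * b T 0) ≤ total (plane (T + 1) P) := by
  rw [total_plane_succ]
  set P' : ℕ → ℤ × ℤ := fun t => P (t + 1) with hP'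
  have ht : total (plane T P') ≤ total (after (P 0) (P 1) (plane T P')) :=
    total_mono (fun w => le_after _ _ _ _ _)
  have hr : row (plane T P') (P 0).2 ≤ row (after (P 0) (P 1) (plane T P')) (P 0).2 :=
    row_mono (fun w => le_after _ _ _ _ _) _
  have hc : col (plane T P') (P 0).1 ≤ col (after (P 0) (P 1) (plane T P')) (P 0).1 :=
    col_mono (fun w => le_after _ _ _ _ _) _
  -- the row bound for a trajectory
  have key : ∀ Q : ℕ → ℤ × ℤ, LegalZ Q → 2 * vcount (T + 1) Q ≤ T + 1 →
      ENNReal.ofReal (2 * b T 0) ≤ row (plane T fun t => Q (t + 1)) (Q 0).2 + 2 := by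
    intro Q hQ hcount
    have h1 := row_lower T (fun t => Q (t + 1)) hQ.shift (Q 0).2
    refine le_trans ?_ (add_le_add_left h1 2)
    have h3 : (2 : ℝ≥0∞) = ENNReal.ofReal 2 := by simp
    rw [h3, ← ENNReal.ofReal_add (mul_nonneg zero_le_two (b_nonneg _ _)) zero_le_two]
    apply ENNReal.ofReal_le_ofReal
    have hd : |(Q 0).2 - (Q 1).2| ≤ if (Q 1).2 = (Q 0).2 then 0 else 1 := by
      have hstep := hQ 0
      have h2 : (Q (0 + 1)) = Q 1 := rfl
      rw [h2] at hstep
      split_ifs with h
      · rw [h, sub_self, abs_zero]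
      · have := abs_nonneg ((Q 1).1 - (Q 0).1)
        rw [abs_sub_comm]
        linarith
    have hv : ((vcount (T + 1) Q : ℕ) : ℤ) =
        (if (Q 1).2 = (Q 0).2 then 0 else 1) + (vcount T (fun t => Q (t + 1)) : ℤ) := by
      rw [vcount]
      push_cast
      rfl
    have h4 : b T (-1) ≤ b T (T - 2 * vcount T (fun t => Q (t + 1)) - 2 * |(Q 0).2 - (Q (0 + 1)).2|) := by
      apply b_mono
      have h5 : Q (0 + 1) = Q 1 := rfl
      rw [h5]
      have h6 : (2 : ℤ) * ((vcount (T + 1) Q : ℕ) : ℤ) ≤ T + 1 := by exact_mod_cast hcount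
      linarith
    have h7 := b_lip T (-1) 0 (by norm_num)
    push_cast at h7
    linarith
  have hcount := count_add (T + 1) P hP
  rcases le_total (vcount (T + 1) P) (vcount (T + 1) fun t => (P t).swap) with h | h
  · have h1 := key P hP (by omega)
    calc total (plane T P') + ENNReal.ofReal (2 * b T 0)
        ≤ total (plane T P') + (row (plane T P') (P 0).2 + 2) := by gcongr
      _ ≤ total (after (P 0) (P 1) (plane T P')) + (row (after (P 0) (P 1) (plane T P')) (P 0).2 + 2) := by
          gcongr
      _ ≤ _ := by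
          rw [add_assoc (total _ + _)]
          gcongr
          exact le_self_add
  · have h1 := key (fun t => (P t).swap) hP.swap (by omega)
    have h2 : row (plane T fun t => (P (t + 1)).swap) (P 0).swap.2 = col (plane T P') (P 0).1 := by
      rw [col_plane]
      rfl
    rw [h2] at h1
    calc total (plane T P') + ENNReal.ofReal (2 * b T 0)
        ≤ total (plane T P') + (col (plane T P') (P 0).1 + 2) := by gcongr
      _ ≤ total (after (P 0) (P 1) (plane T P')) + (col (after (P 0) (P 1) (plane T P')) (P 0).1 + 2) := by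
          gcongr
      _ ≤ total (after (P 0) (P 1) (plane T P')) + (col (after (P 0) (P 1) (plane T P')) (P 0).1 + 2)
          + row (after (P 0) (P 1) (plane T P')) (P 0).2 := le_self_add
      _ = _ := by ring

/-- the lower bound -/
noncomputable def lowerSum (T : ℕ) : ℝ := ∑ s ∈ range T, 2 * b s 0

lemma total_lower (T : ℕ) : ∀ (P : ℕ → ℤ × ℤ), LegalZ P →
    ENNReal.ofReal (lowerSum T) ≤ total (plane T P) := by
  induction T with
  | zero => intro P _; simp [lowerSum]
  | succ T ih =>
    intro P hP
    refine le_trans ?_ (total_step T P hP)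
    refine le_trans ?_ (add_le_add_left (ih _ hP.shift) _)
    unfold lowerSum
    rw [Finset.sum_range_succ, ENNReal.ofReal_add]
    · exact Finset.sum_nonneg fun s _ => mul_nonneg zero_le_two (b_nonneg _ _)
    · exact mul_nonneg zero_le_two (b_nonneg _ _)

/-- distance -/
def nrm (z P : ℤ × ℤ) : ℤ := |z.1 - P.1| + |z.2 - P.2|

lemma nrm_triangle (z P Q : ℤ × ℤ) : nrm z P ≤ nrm z Q + nrm Q P := by
  unfold nrm
  have h1 := abs_sub_le z.1 Q.1 P.1
  have h2 := abs_sub_le z.2 Q.2 P.2
  linarith

lemma nrm_comm (z P : ℤ × ℤ) : nrm z P = nrm P z := by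
  unfold nrm
  rw [abs_sub_comm z.1, abs_sub_comm z.2]

lemma abs_tow {c x : ℤ} (h : x ≠ c) : |tow c x - c| = |x - c| - 1 := by
  rcases lt_or_gt_of_ne h with h | h
  · rw [tow_lt h, abs_of_nonpos (by linarith), abs_of_nonpos (by linarith)]
    ring
  · rw [tow_gt h, abs_of_nonneg (by linarith), abs_of_nonneg (by linarith)]
    ring

lemma plane_supp (T : ℕ) : ∀ (P : ℕ → ℤ × ℤ), LegalZ P → ∀ z, 2 * (T : ℤ) < nrm z (P 0) →
    plane T P z = 0 := by
  induction T with
  | zero => intro P _ z _; rfl
  | succ T ih =>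
    intro P hP z hz
    push_cast at hz
    have hP1 : nrm (P 0) (P 1) ≤ 1 := by
      rw [nrm_comm]
      exact hP 0
    have h1 : ∀ w, 2 * (T : ℤ) + 1 < nrm w (P 0) →
        after (P 0) (P 1) (plane T fun t => P (t + 1)) w = 0 := by
      intro w hw
      unfold after
      have h3 : 2 * (T : ℤ) < nrm w (P 1) := by
        have h4 := nrm_triangle w (P 0) (P 1)
        rw [nrm_comm (P 1) (P 0)] at h4
        linarith
      rw [if_neg, ih _ hP.shift w h3]
      rintro (h | h)
      · subst h
        simp [nrm] at hw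
        have : (0 : ℤ) ≤ T := by positivity
        linarith
      · subst h
        simp [nrm] at h3
        have : (0 : ℤ) ≤ T := by positivity
        linarith
    have hne : z ≠ P 0 := by
      rintro rfl
      simp [nrm] at hz
      have : (0 : ℤ) ≤ T := by positivity
      linarith
    have hU : z.1 ≠ (P 0).1 → nrm (tow (P 0).1 z.1, z.2) (P 0) = nrm z (P 0) - 1 := by
      intro h
      unfold nrm
      rw [abs_tow h]
      ring
    have hV : z.2 ≠ (P 0).2 → nrm (z.1, tow (P 0).2 z.2) (P 0) = nrm z (P 0) - 1 := by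
      intro h
      unfold nrm
      rw [abs_tow h]
      ring
    have hcase : z.1 ≠ (P 0).1 ∨ z.2 ≠ (P 0).2 := by
      by_contra hcon
      push Not at hcon
      exact hne (Prod.ext hcon.1 hcon.2)
    have h2 : stepU (P 0) (after (P 0) (P 1) (plane T fun t => P (t + 1))) z = 0 := by
      unfold stepU
      split_ifs with ha hb
      · exact h1 _ (by rw [hU ha]; linarith)
      · exact h1 _ (by rw [hV hb]; linarith)
      · exact absurd hcase (by push Not at ha hb; simp [ha, hb])
    have h3 : stepV (P 0) (after (P 0) (P 1) (plane T fun t => P (t + 1))) z = 0 := by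
      unfold stepV
      split_ifs with ha hb
      · exact h1 _ (by rw [hV ha]; linarith)
      · exact h1 _ (by rw [hU hb]; linarith)
      · exact absurd hcase (by push Not at ha hb; simp [ha, hb])
    unfold plane
    rw [h2, h3]
    simp

end Pool.Agent.K9h39.Zombie
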