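import Pool.Agent.K9h39.Zombie.Union
import Pool.Agent.K9h39.Zombie.Plane2

set_option autoImplicit false

/-! The toroidal grid locally looks like the plane. -/

namespace Pool.Agent.K9h39.Zombie

open scoped ENNReal
open Finset

/-- A criterion for the distance to `v`. -/
lemma dist_eq {V : Type} (G : SimpleGraph V) (v : V) (d : V → ℕ) (h0 : d v = 0)
    (hlip : ∀ x y, G.Adj x y → d x ≤ d y + 1)
    (hdesc : ∀ x, x ≠ v → ∃ y, G.Adj x y ∧ d y + 1 = d x) (x : V) : G.dist x v = d x := by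
  have h1 : ∀ n x, d x = n → ∃ w : G.Walk x v, w.length = n := by
    intro n
    induction n with
    | zero =>
      intro x hx
      have : x = v := by
        by_contra hne
        obtain ⟨y, _, hy⟩ := hdesc x hne
        omega
      subst this
      exact ⟨SimpleGraph.Walk.nil, rfl⟩
    | succ n ih =>
      intro x hx
      have hne : x ≠ v := by
        rintro rfl
        omega
      obtain ⟨y, hxy, hy⟩ := hdesc x hne
      obtain ⟨w, hw⟩ := ih y (by omega)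
      exact ⟨SimpleGraph.Walk.cons hxy w, by simp [hw]⟩
  have h2 : ∀ {x y : V} (w : G.Walk x y), d x ≤ d y + w.length := by
    intro x y w
    induction w with
    | nil => simp
    | cons h w ih =>
      have := hlip _ _ h
      rw [SimpleGraph.Walk.length_cons]
      omega
  obtain ⟨w, hw⟩ := h1 _ x rfl
  apply le_antisymm
  · rw [← hw]; exact SimpleGraph.dist_le w
  · obtain ⟨w', hw'⟩ := SimpleGraph.Reachable.exists_walk_length_eq_dist ⟨w⟩
    have := h2 w'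
    omega

section
variable (m : ℕ)

/-- circular norm -/
def cyc {n : ℕ} (u : ZMod n) : ℕ := u.valMinAbs.natAbs

lemma cyc_zero {n : ℕ} : cyc (0 : ZMod n) = 0 := by
  unfold cyc; rw [ZMod.valMinAbs_zero]; rfl

lemma cyc_int {n : ℕ} [NeZero n] (z : ℤ) (h : 2 * |z| ≤ n) : cyc ((z : ℤ) : ZMod n) = z.natAbs := by
  unfold cyc
  have h1 := abs_le.1 (show |z| ≤ |z| from le_rfl)
  rcases lt_or_ge (-(n : ℤ)) (2 * z) with h2 | h2
  · have : ((z : ℤ) : ZMod n).valMinAbs = z := by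
      rw [ZMod.valMinAbs_spec]
      refine ⟨rfl, ?_, ?_⟩ <;> linarith [h1.1, h1.2]
    rw [this]
  · have h3 : 2 * z = -(n : ℤ) := by linarith [h1.1, h1.2]
    have h4 : ((z : ℤ) : ZMod n) = ((-z : ℤ) : ZMod n) := by
      rw [← sub_eq_zero, ← Int.cast_sub]
      have : z - -z = -(n : ℤ) := by linarith
      rw [this]
      push_cast
      simp
    have : ((z : ℤ) : ZMod n).valMinAbs = -z := by
      rw [ZMod.valMinAbs_spec]
      have hn : (0 : ℤ) < n := by exact_mod_cast Nat.pos_of_ne_zero (NeZero.ne n)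
      refine ⟨h4, ?_, ?_⟩ <;> linarith [h1.1, h1.2]
    rw [this, Int.natAbs_neg]

lemma cyc_le_add_one {n : ℕ} [NeZero n] (u w : ZMod n) (h : u - w = 1 ∨ w - u = 1) :
    cyc u ≤ cyc w + 1 := by
  unfold cyc
  have key : ∀ a : ZMod n, ∀ e : ℤ, e.natAbs = 1 → u = w + a → (a.valMinAbs.natAbs ≤ e.natAbs) →
      u.valMinAbs.natAbs ≤ w.valMinAbs.natAbs + 1 := by
    intro a e he hu ha
    have h1 := ZMod.natAbs_valMinAbs_add_le w a
    rw [hu]
    have h2 := Int.natAbs_add_le w.valMinAbs a.valMinAbs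
    omega
  have h1 : (1 : ZMod n).valMinAbs.natAbs ≤ 1 := by
    by_cases hn : n = 1
    · subst hn
      have := ZMod.natAbs_valMinAbs_le (1 : ZMod 1)
      omega
    · have h2 : cyc ((1 : ℤ) : ZMod n) = (1 : ℤ).natAbs := by
        apply cyc_int
        have : n ≠ 0 := NeZero.ne n
        simp only [abs_one]
        omega
      unfold cyc at h2
      rw [Int.cast_one] at h2
      rw [h2]; rfl
  rcases h with h | h
  · exact key 1 1 rfl (by rw [← h]; ring) h1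
  · refine key (-1) 1 rfl (by rw [← h]; ring) ?_
    rw [ZMod.natAbs_valMinAbs_neg]
    exact h1

lemma cyc_desc {n : ℕ} [NeZero n] (u : ZMod n) (hu : u ≠ 0) :
    cyc (u - 1) + 1 = cyc u ∨ cyc (u + 1) + 1 = cyc u := by
  set a := u.valMinAbs with ha
  have h1 : ((a : ℤ) : ZMod n) = u := ZMod.coe_valMinAbs u
  have h2 := ZMod.valMinAbs_mem_Ioc u
  rw [← ha] at h2
  have ha0 : a ≠ 0 := by
    intro h
    exact hu ((ZMod.valMinAbs_eq_zero u).1 h)
  have h3 : cyc u = a.natAbs := rfl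
  rcases lt_or_gt_of_ne ha0 with h | h
  · right
    have h4 : u + 1 = ((a + 1 : ℤ) : ZMod n) := by push_cast; rw [h1]
    rw [h4, cyc_int, h3]
    · omega
    · rw [abs_of_nonpos (by omega)]
      have := h2.1
      omega
  · left
    have h4 : u - 1 = ((a - 1 : ℤ) : ZMod n) := by push_cast; rw [h1]
    rw [h4, cyc_int, h3]
    · omega
    · rw [abs_of_nonneg (by omega)]
      have := h2.2
      omega

/-- the torus coordinates -/
abbrev TV := Fin (m + 3) × Fin (m + 3)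

/-- adjacency in the torus -/
lemma torus_adj (x w : TV m) : (torus (m + 3)).Adj x w ↔
    w = (x.1 + 1, x.2) ∨ w = (x.1 - 1, x.2) ∨ w = (x.1, x.2 + 1) ∨ w = (x.1, x.2 - 1) := by
  obtain ⟨x₁, x₂⟩ := x
  obtain ⟨w₁, w₂⟩ := w
  unfold torus
  rw [SimpleGraph.boxProd_adj, SimpleGraph.cycleGraph_adj, SimpleGraph.cycleGraph_adj]
  simp only [Prod.mk.injEq]
  constructor
  · rintro (⟨h | h, h2⟩ | ⟨h | h, h2⟩)
    · right; left; exact ⟨by rw [← h]; abel, h2.symm⟩
    · left; exact ⟨by rw [← h]; abel, h2.symm⟩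
    · right; right; right; exact ⟨h2.symm, by rw [← h]; abel⟩
    · right; right; left; exact ⟨h2.symm, by rw [← h]; abel⟩
  · rintro (⟨h, h2⟩ | ⟨h, h2⟩ | ⟨h, h2⟩ | ⟨h, h2⟩)
    · left; exact ⟨Or.inr (by rw [h]; abel), h2.symm⟩
    · left; exact ⟨Or.inl (by rw [h]; abel), h2.symm⟩
    · right; exact ⟨Or.inr (by rw [h2]; abel), h.symm⟩
    · right; exact ⟨Or.inl (by rw [h2]; abel), h.symm⟩

/-- circular norm -/
def cy (u : Fin (m + 3)) : ℕ := cyc (n := m + 3) u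

lemma cy_le (u w : Fin (m + 3)) (h : u - w = 1 ∨ w - u = 1) : cy m u ≤ cy m w + 1 :=
  cyc_le_add_one (n := m + 3) u w h

lemma cy_desc (u : Fin (m + 3)) (hu : u ≠ 0) : cy m (u - 1) + 1 = cy m u ∨ cy m (u + 1) + 1 = cy m u :=
  cyc_desc (n := m + 3) u hu

lemma cy_zero : cy m 0 = 0 := cyc_zero (n := m + 3)

/-- the distance in the torus -/
def tdist (v x : TV m) : ℕ := cy m (x.1 - v.1) + cy m (x.2 - v.2)

lemma torus_dist (v x : TV m) : (torus (m + 3)).dist x v = tdist m v x := by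
  refine dist_eq (torus (m + 3)) v (tdist m v) ?_ ?_ ?_ x
  · unfold tdist
    rw [sub_self, sub_self, cy_zero]
  · intro x y h
    rw [torus_adj] at h
    unfold tdist
    rcases h with h | h | h | h <;> rw [h]
    · have h1 := cy_le m (x.1 - v.1) (x.1 + 1 - v.1) (Or.inr (by abel))
      change cy m (x.1 - v.1) + cy m (x.2 - v.2) ≤ cy m (x.1 + 1 - v.1) + cy m (x.2 - v.2) + 1
      omega
    · have h1 := cy_le m (x.1 - v.1) (x.1 - 1 - v.1) (Or.inl (by abel))
      change cy m (x.1 - v.1) + cy m (x.2 - v.2) ≤ cy m (x.1 - 1 - v.1) + cy m (x.2 - v.2) + 1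
      omega
    · have h1 := cy_le m (x.2 - v.2) (x.2 + 1 - v.2) (Or.inr (by abel))
      change cy m (x.1 - v.1) + cy m (x.2 - v.2) ≤ cy m (x.1 - v.1) + cy m (x.2 + 1 - v.2) + 1
      omega
    · have h1 := cy_le m (x.2 - v.2) (x.2 - 1 - v.2) (Or.inl (by abel))
      change cy m (x.1 - v.1) + cy m (x.2 - v.2) ≤ cy m (x.1 - v.1) + cy m (x.2 - 1 - v.2) + 1
      omega
  · intro x hx
    have hne : x.1 - v.1 ≠ 0 ∨ x.2 - v.2 ≠ 0 := by
      by_contra hcon
      push Not at hcon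
      exact hx (Prod.ext (sub_eq_zero.1 hcon.1) (sub_eq_zero.1 hcon.2))
    unfold tdist
    rcases hne with h | h
    · rcases cy_desc m (x.1 - v.1) h with h1 | h1
      · refine ⟨(x.1 - 1, x.2), (torus_adj m _ _).2 (Or.inr (Or.inl rfl)), ?_⟩
        have h2 : (x.1 - 1 - v.1 : Fin (m + 3)) = x.1 - v.1 - 1 := by abel
        change cy m (x.1 - 1 - v.1) + cy m (x.2 - v.2) + 1 = cy m (x.1 - v.1) + cy m (x.2 - v.2)
        rw [h2]
        omega
      · refine ⟨(x.1 + 1, x.2), (torus_adj m _ _).2 (Or.inl rfl), ?_⟩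
        have h2 : (x.1 + 1 - v.1 : Fin (m + 3)) = x.1 - v.1 + 1 := by abel
        change cy m (x.1 + 1 - v.1) + cy m (x.2 - v.2) + 1 = cy m (x.1 - v.1) + cy m (x.2 - v.2)
        rw [h2]
        omega
    · rcases cy_desc m (x.2 - v.2) h with h1 | h1
      · refine ⟨(x.1, x.2 - 1), (torus_adj m _ _).2 (Or.inr (Or.inr (Or.inr rfl))), ?_⟩
        have h2 : (x.2 - 1 - v.2 : Fin (m + 3)) = x.2 - v.2 - 1 := by abel
        change cy m (x.1 - v.1) + cy m (x.2 - 1 - v.2) + 1 = cy m (x.1 - v.1) + cy m (x.2 - v.2)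
        rw [h2]
        omega
      · refine ⟨(x.1, x.2 + 1), (torus_adj m _ _).2 (Or.inr (Or.inr (Or.inl rfl))), ?_⟩
        have h2 : (x.2 + 1 - v.2 : Fin (m + 3)) = x.2 - v.2 + 1 := by abel
        change cy m (x.1 - v.1) + cy m (x.2 + 1 - v.2) + 1 = cy m (x.1 - v.1) + cy m (x.2 - v.2)
        rw [h2]
        omega

/-- the covering map from the plane grid to the torus -/
def lft (z : ℤ × ℤ) : TV m := (((z.1 : ℤ) : ZMod (m + 3)), ((z.2 : ℤ) : ZMod (m + 3)))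

lemma lft_add_one_fst (z : ℤ × ℤ) : lft m (z.1 + 1, z.2) = ((lft m z).1 + 1, (lft m z).2) := by
  unfold lft
  refine Prod.ext ?_ rfl
  change (((z.1 + 1 : ℤ)) : ZMod (m + 3)) = ((z.1 : ℤ) : ZMod (m + 3)) + 1
  push_cast
  rfl

lemma lft_sub_one_fst (z : ℤ × ℤ) : lft m (z.1 - 1, z.2) = ((lft m z).1 - 1, (lft m z).2) := by
  unfold lft
  refine Prod.ext ?_ rfl
  change (((z.1 - 1 : ℤ)) : ZMod (m + 3)) = ((z.1 : ℤ) : ZMod (m + 3)) - 1
  push_cast
  rfl

lemma lft_add_one_snd (z : ℤ × ℤ) : lft m (z.1, z.2 + 1) = ((lft m z).1, (lft m z).2 + 1) := by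
  unfold lft
  refine Prod.ext rfl ?_
  change (((z.2 + 1 : ℤ)) : ZMod (m + 3)) = ((z.2 : ℤ) : ZMod (m + 3)) + 1
  push_cast
  rfl

lemma lft_sub_one_snd (z : ℤ × ℤ) : lft m (z.1, z.2 - 1) = ((lft m z).1, (lft m z).2 - 1) := by
  unfold lft
  refine Prod.ext rfl ?_
  change (((z.2 - 1 : ℤ)) : ZMod (m + 3)) = ((z.2 : ℤ) : ZMod (m + 3)) - 1
  push_cast
  rfl

lemma lft_adj (z : ℤ × ℤ) (w : TV m) : (torus (m + 3)).Adj (lft m z) w ↔
    w = lft m (z.1 + 1, z.2) ∨ w = lft m (z.1 - 1, z.2) ∨ w = lft m (z.1, z.2 + 1) ∨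
      w = lft m (z.1, z.2 - 1) := by
  rw [torus_adj, lft_add_one_fst, lft_sub_one_fst, lft_add_one_snd, lft_sub_one_snd]

lemma lft_surj (v : TV m) : ∃ z, lft m z = v := by
  refine ⟨((v.1.val : ℤ), (v.2.val : ℤ)), ?_⟩
  unfold lft
  refine Prod.ext ?_ ?_
  · change (((v.1.val : ℕ) : ℤ) : ZMod (m + 3)) = v.1
    rw [Int.cast_natCast]
    exact ZMod.natCast_zmod_val (n := m + 3) v.1
  · change (((v.2.val : ℕ) : ℤ) : ZMod (m + 3)) = v.2
    rw [Int.cast_natCast]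
    exact ZMod.natCast_zmod_val (n := m + 3) v.2

lemma tdist_lft (P z : ℤ × ℤ) (h : 2 * nrm z P ≤ ((m + 3 : ℕ) : ℤ)) :
    ((tdist m (lft m P) (lft m z) : ℕ) : ℤ) = nrm z P := by
  unfold nrm at h ⊢
  have h1 : (lft m z).1 - (lft m P).1 = (((z.1 - P.1 : ℤ)) : ZMod (m + 3)) := by
    change ((z.1 : ℤ) : ZMod (m + 3)) - ((P.1 : ℤ) : ZMod (m + 3)) = _
    push_cast
    rfl
  have h2 : (lft m z).2 - (lft m P).2 = (((z.2 - P.2 : ℤ)) : ZMod (m + 3)) := by
    change ((z.2 : ℤ) : ZMod (m + 3)) - ((P.2 : ℤ) : ZMod (m + 3)) = _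
    push_cast
    rfl
  unfold tdist
  have h3 := abs_nonneg (z.1 - P.1)
  have h4 := abs_nonneg (z.2 - P.2)
  have h5 : cy m ((lft m z).1 - (lft m P).1) = (z.1 - P.1).natAbs := by
    rw [h1]
    exact cyc_int (n := m + 3) _ (by linarith)
  have h6 : cy m ((lft m z).2 - (lft m P).2) = (z.2 - P.2).natAbs := by
    rw [h2]
    exact cyc_int (n := m + 3) _ (by linarith)
  rw [h5, h6]
  push_cast
  rfl

lemma lft_inj {z w : ℤ × ℤ} (h1 : |z.1 - w.1| < ((m + 3 : ℕ) : ℤ))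
    (h2 : |z.2 - w.2| < ((m + 3 : ℕ) : ℤ)) (h : lft m z = lft m w) : z = w := by
  have key : ∀ a b : ℤ, |a - b| < ((m + 3 : ℕ) : ℤ) →
      ((a : ℤ) : ZMod (m + 3)) = ((b : ℤ) : ZMod (m + 3)) → a = b := by
    intro a b hab he
    rw [ZMod.intCast_eq_intCast_iff_dvd_sub] at he
    have : b - a = 0 := by
      apply Int.eq_zero_of_abs_lt_dvd he
      rwa [abs_sub_comm]
    linarith
  exact Prod.ext (key _ _ h1 (congrArg Prod.fst h)) (key _ _ h2 (congrArg Prod.snd h))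

end

end Pool.Agent.K9h39.Zombie
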