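import Pool.Agent.K9h39.Zombie.Defs

set_option autoImplicit false

/-! A union bound over all trajectories of the survivor. -/

namespace Pool.Agent.K9h39.Zombie

open Finset

section
variable {V : Type} [Fintype V] (G : SimpleGraph V)

/-- `p` is a legal trajectory of the survivor. -/
def Legal (p : ℕ → V) : Prop := ∀ t, p (t + 1) = p t ∨ G.Adj (p t) (p (t + 1))

open Classical in
/-- The probability that a zombie which starts at `z` does not catch a survivor with the trajectory
`p` during the first `t` rounds. -/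
noncomputable def nonCatch : ℕ → (ℕ → V) → V → ℝ
  | 0, _, _ => 1
  | t + 1, p, z => ∑ w, moveProb G z (p 0) w *
      (if w = p 0 ∨ w = p 1 then 0 else nonCatch t (fun j => p (j + 1)) w)

lemma moveProb_nonneg (z v w : V) : 0 ≤ moveProb G z v w := by
  unfold moveProb
  split_ifs
  · positivity
  · exact le_rfl

lemma sum_moveProb_le (z v : V) : ∑ w, moveProb G z v w ≤ 1 := by
  classical
  unfold moveProb
  rw [← Finset.sum_filter, Finset.filter_mem_eq_inter, Finset.univ_inter, Finset.sum_const,
    nsmul_eq_mul]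
  rcases Nat.eq_zero_or_pos (closer G z v).card with h | h
  · rw [h]; simp
  · rw [mul_inv_cancel₀]
    exact_mod_cast h.ne'

lemma nonCatch_nonneg (t : ℕ) : ∀ (p : ℕ → V) (z : V), 0 ≤ nonCatch G t p z := by
  induction t with
  | zero => intro p z; exact zero_le_one
  | succ t ih =>
    intro p z
    unfold nonCatch
    refine Finset.sum_nonneg fun w _ => mul_nonneg (moveProb_nonneg G _ _ _) ?_
    split_ifs
    · exact le_rfl
    · exact ih _ _

lemma nonCatch_le_one (t : ℕ) : ∀ (p : ℕ → V) (z : V), nonCatch G t p z ≤ 1 := by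
  induction t with
  | zero => intro p z; exact le_rfl
  | succ t ih =>
    intro p z
    unfold nonCatch
    refine le_trans (Finset.sum_le_sum fun w _ => ?_) (sum_moveProb_le G z (p 0))
    have h1 := moveProb_nonneg G z (p 0) w
    split_ifs
    · rw [mul_zero]; exact h1
    · calc _ ≤ moveProb G z (p 0) w * 1 := mul_le_mul_of_nonneg_left (ih _ _) h1
        _ = _ := mul_one _

/-- a trajectory with first vertex `v` -/
def cons (v : V) (p : ℕ → V) : ℕ → V
  | 0 => v
  | t + 1 => p t

omit [Fintype V] in
lemma prod_ite_all {k : ℕ} (Z : Fin k → V) (v v' : V) (f : Fin k → ℝ) [DecidableEq V]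
    [Decidable (∀ i, Z i ≠ v ∧ Z i ≠ v')] :
    (if ∀ i, Z i ≠ v ∧ Z i ≠ v' then ∏ i, f i else 0) =
      ∏ i, if Z i = v ∨ Z i = v' then 0 else f i := by
  split_ifs with h
  · refine Finset.prod_congr rfl fun i _ => ?_
    rw [if_neg]
    rintro (h1 | h1)
    · exact (h i).1 h1
    · exact (h i).2 h1
  · push Not at h
    obtain ⟨i, hi⟩ := h
    symm
    apply Finset.prod_eq_zero (Finset.mem_univ i)
    rw [if_pos]
    by_cases h1 : Z i = v
    · exact Or.inl h1
    · exact Or.inr (hi h1)

lemma survive_nonneg {k : ℕ} (σ : List (Fin k → V) → V) (t : ℕ) :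
    ∀ Z h, 0 ≤ survive G σ t Z h := by
  induction t with
  | zero => intro Z h; exact zero_le_one
  | succ t ih =>
    intro Z h
    unfold survive
    refine Finset.sum_nonneg fun Z' _ => mul_nonneg
      (Finset.prod_nonneg fun i _ => moveProb_nonneg G _ _ _) ?_
    split_ifs
    · exact ih _ _
    · exact le_rfl

open Classical in
/-- The union bound. -/
lemma union_bound (D : ℕ) (hD : ∀ v, Fintype.card {w // w = v ∨ G.Adj v w} ≤ D) (T : ℕ) :
    ∀ v, ∃ (ι : Type) (_ : Fintype ι) (p : ι → ℕ → V), Fintype.card ι ≤ D ^ T ∧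
      (∀ j, p j 0 = v ∧ Legal G (p j)) ∧
      ∀ (k : ℕ) (σ : List (Fin k → V) → V) (Z : Fin k → V) (h : List (Fin k → V)), σ (Z :: h) = v →
        survive G σ T Z h ≤ ∑ j, ∏ i, nonCatch G T (p j) (Z i) := by
  induction T with
  | zero =>
    intro v
    refine ⟨Unit, inferInstance, fun _ _ => v, by simp, fun _ => ⟨rfl, fun _ => Or.inl rfl⟩, ?_⟩
    intro k σ Z h _
    simp [survive, nonCatch]
  | succ T ih =>
    intro v
    choose ι hι p hcard hp hs using ih
    refine ⟨Σ v' : {w // w = v ∨ G.Adj v w}, ι v'.1, inferInstance,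
      fun j => cons v (p j.1.1 j.2), ?_, ?_, ?_⟩
    · rw [Fintype.card_sigma]
      calc ∑ a : {w // w = v ∨ G.Adj v w}, Fintype.card (ι a.1)
          ≤ ∑ a : {w // w = v ∨ G.Adj v w}, D ^ T := Finset.sum_le_sum fun a _ => hcard _
        _ = Fintype.card {w // w = v ∨ G.Adj v w} * D ^ T := by
            rw [Finset.sum_const, Finset.card_univ, smul_eq_mul]
        _ ≤ D * D ^ T := Nat.mul_le_mul_right _ (hD v)
        _ = D ^ (T + 1) := by ring
    · rintro ⟨v', j⟩
      refine ⟨rfl, ?_⟩
      intro t
      cases t with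
      | zero =>
        change p v'.1 j 0 = v ∨ G.Adj v (p v'.1 j 0)
        rw [(hp v'.1 j).1]
        exact v'.2
      | succ t => exact (hp v'.1 j).2 t
    · intro k σ Z h hv
      have key : ∀ Z' : Fin k → V,
          (if (∀ i, Z' i ≠ σ (Z :: h)) ∧
            (σ (Z' :: Z :: h) = σ (Z :: h) ∨ G.Adj (σ (Z :: h)) (σ (Z' :: Z :: h))) ∧
            (∀ i, Z' i ≠ σ (Z' :: Z :: h))
          then survive G σ T Z' (Z :: h) else 0) ≤
          ∑ v' : {w // w = v ∨ G.Adj v w}, ∑ j, ∏ i,
            if Z' i = v ∨ Z' i = v'.1 then 0 else nonCatch G T (p v'.1 j) (Z' i) := by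
        intro Z'
        have hnn : ∀ v' : {w // w = v ∨ G.Adj v w}, ∀ j, 0 ≤ ∏ i,
            if Z' i = v ∨ Z' i = v'.1 then 0 else nonCatch G T (p v'.1 j) (Z' i) := by
          intro v' j
          refine Finset.prod_nonneg fun i _ => ?_
          split_ifs
          · exact le_rfl
          · exact nonCatch_nonneg G _ _ _
        split_ifs with hc
        · rw [hv] at hc
          obtain ⟨h1, h2, h3⟩ := hc
          have h4 := hs (σ (Z' :: Z :: h)) k σ Z' (Z :: h) rfl
          refine h4.trans ?_
          have h5 := Finset.single_le_sum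
            (f := fun v' : {w // w = v ∨ G.Adj v w} => ∑ j, ∏ i,
              if Z' i = v ∨ Z' i = v'.1 then 0 else nonCatch G T (p v'.1 j) (Z' i))
            (fun v' _ => Finset.sum_nonneg fun j _ => hnn v' j)
            (Finset.mem_univ (⟨σ (Z' :: Z :: h), h2⟩ : {w // w = v ∨ G.Adj v w}))
          refine le_trans (le_of_eq ?_) h5
          refine Finset.sum_congr rfl fun j _ => ?_
          refine Finset.prod_congr rfl fun i _ => ?_
          rw [if_neg]
          rintro (h6 | h6)
          · exact h1 i h6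
          · exact h3 i h6
        · exact Finset.sum_nonneg fun v' _ => Finset.sum_nonneg fun j _ => hnn v' j
      rw [Fintype.sum_sigma]
      calc survive G σ (T + 1) Z h = ∑ Z' : Fin k → V,
            (∏ i, moveProb G (Z i) (σ (Z :: h)) (Z' i)) *
            (if (∀ i, Z' i ≠ σ (Z :: h)) ∧
            (σ (Z' :: Z :: h) = σ (Z :: h) ∨ G.Adj (σ (Z :: h)) (σ (Z' :: Z :: h))) ∧
            (∀ i, Z' i ≠ σ (Z' :: Z :: h))
          then survive G σ T Z' (Z :: h) else 0) := by rw [survive]
        _ ≤ ∑ Z' : Fin k → V, (∏ i, moveProb G (Z i) v (Z' i)) *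
            ∑ v' : {w // w = v ∨ G.Adj v w}, ∑ j, ∏ i,
            if Z' i = v ∨ Z' i = v'.1 then 0 else nonCatch G T (p v'.1 j) (Z' i) := by
            refine Finset.sum_le_sum fun Z' _ => ?_
            rw [hv]
            refine mul_le_mul_of_nonneg_left ?_
              (Finset.prod_nonneg fun i _ => moveProb_nonneg G _ _ _)
            have := key Z'
            rw [hv] at this
            exact this
        _ = ∑ v' : {w // w = v ∨ G.Adj v w}, ∑ j, ∑ Z' : Fin k → V,
            ∏ i, (moveProb G (Z i) v (Z' i) *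
            if Z' i = v ∨ Z' i = v'.1 then 0 else nonCatch G T (p v'.1 j) (Z' i)) := by
            simp_rw [Finset.mul_sum, ← Finset.prod_mul_distrib]
            rw [Finset.sum_comm]
            refine Finset.sum_congr rfl fun v' _ => ?_
            rw [Finset.sum_comm]
        _ = _ := by
            refine Finset.sum_congr rfl fun v' _ => Finset.sum_congr rfl fun j _ => ?_
            have h7 := Finset.prod_univ_sum (fun _ : Fin k => (Finset.univ : Finset V))
              (fun i w => moveProb G (Z i) v w *
                if w = v ∨ w = v'.1 then 0 else nonCatch G T (p v'.1 j) w)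
            rw [Fintype.piFinset_univ] at h7
            rw [← h7]
            refine Finset.prod_congr rfl fun i _ => ?_
            rw [nonCatch]
            change _ = ∑ w, moveProb G (Z i) v w *
              (if w = v ∨ w = p v'.1 j 0 then 0 else nonCatch G T (p v'.1 j) w)
            rw [(hp v'.1 j).1]

open Classical in
/-- The bound for the probability of survival. -/
lemma surviveProb_le (D : ℕ) (hD : ∀ v, Fintype.card {w // w = v ∨ G.Adj v w} ≤ D) (T : ℕ) (Q : ℝ)
    (hQ : ∀ p : ℕ → V, Legal G p → ∑ z, (if z = p 0 then 0 else nonCatch G T p z) ≤ Q)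
    {k : ℕ} (σ : List (Fin k → V) → V) :
    surviveProb G σ T ≤ Fintype.card V * (D : ℝ) ^ T * (Q / Fintype.card V) ^ k := by
  choose ι hι p hcard hp hs using union_bound G D hD T
  have hQ0 : ∀ q : ℕ → V, 0 ≤ ∑ z, (if z = q 0 then 0 else nonCatch G T q z) := by
    intro q
    refine Finset.sum_nonneg fun z _ => ?_
    split_ifs
    · exact le_rfl
    · exact nonCatch_nonneg G _ _ _
  have h1 : (∑ Z : Fin k → V, if ∀ i, Z i ≠ σ [Z] then survive G σ T Z [] else 0) ≤
      ∑ Z : Fin k → V, ∑ v, ∑ j, ∏ i,
        if Z i = v then 0 else nonCatch G T (p v j) (Z i) := by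
    refine Finset.sum_le_sum fun Z _ => ?_
    have hnn : ∀ v, ∀ j, 0 ≤ ∏ i, if Z i = v then 0 else nonCatch G T (p v j) (Z i) := by
      intro v j
      refine Finset.prod_nonneg fun i _ => ?_
      split_ifs
      · exact le_rfl
      · exact nonCatch_nonneg G _ _ _
    split_ifs with hc
    · have h4 := hs (σ [Z]) k σ Z [] rfl
      refine h4.trans ?_
      have h5 := Finset.single_le_sum
        (f := fun v => ∑ j, ∏ i, if Z i = v then 0 else nonCatch G T (p v j) (Z i))
        (fun v _ => Finset.sum_nonneg fun j _ => hnn v j) (Finset.mem_univ (σ [Z]))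
      refine le_trans (le_of_eq ?_) h5
      refine Finset.sum_congr rfl fun j _ => ?_
      refine Finset.prod_congr rfl fun i _ => ?_
      rw [if_neg (hc i)]
    · exact Finset.sum_nonneg fun v _ => Finset.sum_nonneg fun j _ => hnn v j
  have h2 : (∑ Z : Fin k → V, ∑ v, ∑ j, ∏ i,
        if Z i = v then 0 else nonCatch G T (p v j) (Z i)) =
      ∑ v, ∑ j, (∑ z, if z = v then 0 else nonCatch G T (p v j) z) ^ k := by
    rw [Finset.sum_comm]
    refine Finset.sum_congr rfl fun v _ => ?_
    rw [Finset.sum_comm]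
    refine Finset.sum_congr rfl fun j _ => ?_
    have h7 := Finset.prod_univ_sum (fun _ : Fin k => (Finset.univ : Finset V))
      (fun _ z => if z = v then 0 else nonCatch G T (p v j) z)
    rw [Fintype.piFinset_univ] at h7
    rw [← h7, Finset.prod_const, Finset.card_univ, Fintype.card_fin]
  have h3 : ∑ v, ∑ j, (∑ z, if z = v then 0 else nonCatch G T (p v j) z) ^ k ≤
      Fintype.card V * (D : ℝ) ^ T * Q ^ k := by
    calc ∑ v, ∑ j, (∑ z, if z = v then 0 else nonCatch G T (p v j) z) ^ k
        ≤ ∑ v : V, ∑ j : ι v, Q ^ k := by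
          refine Finset.sum_le_sum fun v _ => Finset.sum_le_sum fun j _ => ?_
          have h8 := hQ (p v j) (hp v j).2
          have h9 := hQ0 (p v j)
          rw [(hp v j).1] at h8 h9
          exact pow_le_pow_left₀ h9 h8 k
      _ ≤ ∑ v : V, (D : ℝ) ^ T * Q ^ k := by
          refine Finset.sum_le_sum fun v _ => ?_
          rw [Finset.sum_const, nsmul_eq_mul, Finset.card_univ]
          have h10 : (Fintype.card (ι v) : ℝ) ≤ (D : ℝ) ^ T := by exact_mod_cast hcard v
          have h11 : 0 ≤ Q := by
            have := hQ (fun _ => v) (fun _ => Or.inl rfl)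
            exact (hQ0 (fun _ => v)).trans this
          exact mul_le_mul_of_nonneg_right h10 (pow_nonneg h11 k)
      _ = _ := by rw [Finset.sum_const, nsmul_eq_mul, Finset.card_univ]; ring
  unfold surviveProb
  rw [div_pow, mul_div_assoc']
  rcases Nat.eq_zero_or_pos (Fintype.card V) with hV | hV
  · rcases Nat.eq_zero_or_pos k with rfl | hk
    · simp only [pow_zero, div_one]
      have := h1.trans (h2.le.trans h3)
      simpa using this
    · rw [hV]; simp [hk.ne']
  · have hV' : (0 : ℝ) < Fintype.card V := by exact_mod_cast hV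
    exact div_le_div_of_nonneg_right (h1.trans (h2.le.trans h3)) (pow_pos hV' k).le

end

end Pool.Agent.K9h39.Zombie
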