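import Mathlib

set_option autoImplicit false

/-! The positive part of a simple random walk: `b s x = E (x + W_s)^+`. -/

namespace Pool.Agent.K9h39.Zombie

/-- `b s x` is the expectation of the positive part of `x + W_s`, where `W_s` is the position of
the simple random walk after `s` steps. -/
noncomputable def b : ℕ → ℤ → ℝ
  | 0, x => max (x : ℝ) 0
  | s + 1, x => (b s (x + 1) + b s (x - 1)) / 2

lemma b_zero (x : ℤ) : b 0 x = max (x : ℝ) 0 := rfl

lemma b_succ (s : ℕ) (x : ℤ) : b (s + 1) x = (b s (x + 1) + b s (x - 1)) / 2 := rfl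

lemma b_nonneg (s : ℕ) : ∀ x, 0 ≤ b s x := by
  induction s with
  | zero => intro x; rw [b_zero]; exact le_max_right _ _
  | succ s ih => intro x; rw [b_succ]; have := ih (x + 1); have := ih (x - 1); linarith

lemma b_mono (s : ℕ) : ∀ x y, x ≤ y → b s x ≤ b s y := by
  induction s with
  | zero =>
    intro x y h
    rw [b_zero, b_zero]
    exact max_le_max (by exact_mod_cast h) le_rfl
  | succ s ih =>
    intro x y h
    rw [b_succ, b_succ]
    have := ih (x + 1) (y + 1) (by omega)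
    have := ih (x - 1) (y - 1) (by omega)
    linarith

lemma b_lip (s : ℕ) : ∀ x y, x ≤ y → b s y ≤ b s x + ((y : ℝ) - x) := by
  induction s with
  | zero =>
    intro x y h
    have h' : (x : ℝ) ≤ y := by exact_mod_cast h
    rw [b_zero, b_zero]
    apply max_le
    · have := le_max_left (x : ℝ) 0
      linarith
    · have := le_max_right (x : ℝ) 0
      linarith
  | succ s ih =>
    intro x y h
    rw [b_succ, b_succ]
    have h1 := ih (x + 1) (y + 1) (by omega)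
    have h2 := ih (x - 1) (y - 1) (by omega)
    push_cast at h1 h2
    linarith

lemma base_ineq (u : ℝ) (hu : 0 ≤ u) : u ^ 2 - 4 / 27 * u ^ 4 ≤ u := by
  have h : u - u ^ 2 + 4 / 27 * u ^ 4 = u * ((1 - 2 / 3 * u) ^ 2 * (1 + u / 3)) := by ring
  have h2 : 0 ≤ u * ((1 - 2 / 3 * u) ^ 2 * (1 + u / 3)) := by positivity
  linarith

lemma b_lower (L : ℝ) (hL : 0 < L) (s : ℕ) : ∀ x : ℤ,
    (1 / 2 : ℝ) * (x + (x ^ 2 + s) / L - 4 / 27 * ((x : ℝ) ^ 4 + 6 * x ^ 2 * s + 3 * s ^ 2 - 2 * s) / L ^ 3)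
      ≤ b s x := by
  induction s with
  | zero =>
    intro x
    rw [b_zero]
    have h := base_ineq (|(x : ℝ)| / L) (by positivity)
    have h1 : (x : ℝ) ^ 2 / L - 4 / 27 * (x : ℝ) ^ 4 / L ^ 3 ≤ |(x : ℝ)| := by
      have h2 : L * ((|(x : ℝ)| / L) ^ 2 - 4 / 27 * (|(x : ℝ)| / L) ^ 4) ≤ L * (|(x : ℝ)| / L) :=
        mul_le_mul_of_nonneg_left h hL.le
      have h3 : L * (|(x : ℝ)| / L) = |(x : ℝ)| := by field_simp
      have h4 : L * ((|(x : ℝ)| / L) ^ 2 - 4 / 27 * (|(x : ℝ)| / L) ^ 4) =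
          (x : ℝ) ^ 2 / L - 4 / 27 * (x : ℝ) ^ 4 / L ^ 3 := by
        rw [div_pow, div_pow, sq_abs, show |(x : ℝ)| ^ 4 = (x : ℝ) ^ 4 by
          rw [show (4 : ℕ) = 2 * 2 by norm_num, pow_mul, pow_mul, sq_abs]]
        field_simp
      linarith
    have h5 : (x : ℝ) + |(x : ℝ)| ≤ 2 * max (x : ℝ) 0 := by
      rcases le_total 0 (x : ℝ) with hx | hx
      · rw [abs_of_nonneg hx, max_eq_left hx]; linarith
      · rw [abs_of_nonpos hx, max_eq_right hx]; linarith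
    push_cast
    have h6 : (4 : ℝ) / 27 * ((x : ℝ) ^ 4 + 6 * x ^ 2 * 0 + 3 * 0 ^ 2 - 2 * 0) / L ^ 3 =
        4 / 27 * (x : ℝ) ^ 4 / L ^ 3 := by ring
    rw [h6]
    have h7 : ((x : ℝ) ^ 2 + 0) / L = (x : ℝ) ^ 2 / L := by ring
    rw [h7]
    linarith
  | succ s ih =>
    intro x
    rw [b_succ]
    have h1 := ih (x + 1)
    have h2 := ih (x - 1)
    push_cast at h1 h2 ⊢
    refine le_trans (le_of_eq ?_) (by linarith : ((1 / 2 : ℝ) * ((x + 1) + ((x + 1) ^ 2 + s) / L -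
      4 / 27 * (((x : ℝ) + 1) ^ 4 + 6 * (x + 1) ^ 2 * s + 3 * s ^ 2 - 2 * s) / L ^ 3) +
      (1 / 2 : ℝ) * ((x - 1) + ((x - 1) ^ 2 + s) / L -
      4 / 27 * (((x : ℝ) - 1) ^ 4 + 6 * (x - 1) ^ 2 * s + 3 * s ^ 2 - 2 * s) / L ^ 3)) / 2 ≤ _)
    field_simp
    ring

lemma b_zero_lower (s : ℕ) : (5 / 18 : ℝ) * Real.sqrt s ≤ b s 0 := by
  rcases Nat.eq_zero_or_pos s with rfl | hs
  · simp [b_zero]
  · have hs' : (0 : ℝ) < s := by exact_mod_cast hs
    have hL : 0 < Real.sqrt s := Real.sqrt_pos.2 hs'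
    have h := b_lower (Real.sqrt s) hL s 0
    refine le_trans ?_ h
    have h2 : Real.sqrt s ^ 2 = s := Real.sq_sqrt hs'.le
    have h3 : Real.sqrt s ^ 3 = s * Real.sqrt s := by rw [pow_succ, h2]
    push_cast
    rw [h3]
    have h4 : (s : ℝ) / Real.sqrt s = Real.sqrt s := by
      rw [div_eq_iff hL.ne']
      rw [← sq, h2]
    have h5 : (4 : ℝ) / 27 * ((0 : ℝ) ^ 4 + 6 * 0 ^ 2 * s + 3 * s ^ 2 - 2 * s) / (s * Real.sqrt s)
        ≤ 4 / 9 * Real.sqrt s := by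
      rw [div_le_iff₀ (by positivity)]
      have : (4 : ℝ) / 9 * Real.sqrt s * (s * Real.sqrt s) = 4 / 9 * s * Real.sqrt s ^ 2 := by ring
      rw [this, h2]
      nlinarith
    have h6 : ((0 : ℝ) ^ 2 + s) / Real.sqrt s = Real.sqrt s := by
      rw [show ((0 : ℝ) ^ 2 + s) = s by ring, h4]
    rw [h6]
    linarith

end Pool.Agent.K9h39.Zombie
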